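import Pool.Agent.TH872.Transfer
import Pool.Agent.W93.AU18

set_option autoImplicit false
set_option maxHeartbeats 4000000

/-!
# Primes `n + κ v`, `v` a palindrome, for almost all `n`: the bilinear estimate (helper28)
-/

namespace Pool.Agent.E8helper28.PD

open Finset
open Pool.Agent.H373R2.T7
open Pool.Agent.TH872.Mir (Gs pw w0 w0_mirr mir_law FF0 FF0_pos val val_lt cc_bound pals_of_prob Pals)
open Pool.Agent.TH872.Tr (IsPalindrome)
open Pool.Agent.W93.AU (Law law_prob dI)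

open Classical in
/-- the palindromes with `k` digits -/
noncomputable def pl (b k : ℕ) : Finset ℕ := (range (b ^ k)).filter (IsPalindrome b k)

lemma pl_eq (b k : ℕ) : pl b k = Pals b k := rfl

lemma core_s (b B U : ℕ) (hb : 2 ≤ b) (κ : ℤ) (hκ : κ ≠ 0) (s : ℕ) (hs : s ≤ 1) : ∃ B0 : ℕ, ∀ Ez : ℕ, ∃ m₀ : ℕ, ∀ m : ℕ, m₀ ≤ m →
    ∀ k : ℕ, k = 2 * m + s → ∀ z : ℕ, (k : ℝ) ^ B0 ≤ z → (z : ℝ) ≤ (k : ℝ) ^ Ez → ∀ G : ℕ → ℝ, (∀ n, |G n| ≤ 1) →
    ∀ P : ℕ → Prop, [DecidablePred P] → (∀ v, P v → ((b ^ k : ℕ) : ℝ) / (k : ℝ) ^ U < |∑ n ∈ Icc 1 (B * b ^ k), G n * dI z ((n : ℤ) + κ * v)|) →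
    (((pl b k).filter P).card : ℝ) ≤ (pl b k).card * (1 / (k : ℝ) ^ U) := by
  classical
  have hbr : (2 : ℝ) ≤ b := by exact_mod_cast hb
  have hb0 : (0 : ℝ) < b := by linarith
  obtain ⟨e, he⟩ : ∃ e, e = B + 3 * κ.natAbs := ⟨_, rfl⟩
  obtain ⟨D, hD⟩ := mir_law b hb (1 / (b : ℝ) ^ 2) (by positivity) κ (e + B) s (4 * (U + 1) + 3 * 0 + 7 + 6)
  obtain ⟨B0, h0⟩ := law_prob b (FF0 b κ) hb (FF0_pos b κ hκ) 0 (U + 1) D
  refine ⟨B0 + 1, fun Ez => ?_⟩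
  obtain ⟨K0, h0⟩ := h0 (2 * Ez)
  obtain ⟨C, hC⟩ : ∃ C : ℝ, C = (1 + (e + B : ℕ)) * Real.log b := ⟨_, rfl⟩
  obtain ⟨m1, hm1⟩ := exists_nat_ge (C ^ B0)
  refine ⟨K0 + m1 + b ^ (e + B) + 4, fun m hm k hk z hz1 hz2 G hG P _ hP => ?_⟩
  have hlb : Real.log 2 ≤ Real.log b := Real.log_le_log (by norm_num) hbr
  have hl2 := Real.log_two_gt_d9
  have hlb0 : 0 < Real.log b := by linarith
  have hkr : (4 : ℝ) ≤ k := by exact_mod_cast (by omega : 4 ≤ k)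
  have hk0 : (0 : ℝ) < k := by linarith
  obtain ⟨K, hK⟩ : ∃ K, K = 2 * m + s + (e + B) := ⟨_, rfl⟩
  have hKk : K = k + (e + B) := by omega
  have hKr : (K : ℝ) = k + (e + B : ℕ) := by rw [hKk]; push_cast; ring
  have hkK : (k : ℝ) ≤ K := by rw [hKr]; have : (0 : ℝ) ≤ (e + B : ℕ) := Nat.cast_nonneg _; linarith
  have hlog : Real.log ((b ^ K : ℕ) : ℝ) = K * Real.log b := by push_cast; rw [Real.log_pow]
  have hloghi : Real.log ((b ^ K : ℕ) : ℝ) ≤ C * k := by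
    rw [hlog, hC, hKr]
    have h1 : (k : ℝ) + (e + B : ℕ) ≤ (1 + (e + B : ℕ)) * k := by
      have : (0 : ℝ) ≤ (e + B : ℕ) := Nat.cast_nonneg _
      nlinarith
    calc (k + (e + B : ℕ) : ℝ) * Real.log b ≤ ((1 + (e + B : ℕ)) * k) * Real.log b := mul_le_mul_of_nonneg_right h1 hlb0.le
      _ = _ := by ring
  have hloglo : (k : ℝ) / 2 ≤ Real.log ((b ^ K : ℕ) : ℝ) := by
    rw [hlog]
    nlinarith
  have hlog0 : 0 ≤ Real.log ((b ^ K : ℕ) : ℝ) := by linarith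
  have hz1' : Real.log ((b ^ K : ℕ) : ℝ) ^ B0 ≤ z := by
    refine le_trans ?_ hz1
    calc Real.log ((b ^ K : ℕ) : ℝ) ^ B0 ≤ (C * k) ^ B0 := pow_le_pow_left₀ hlog0 hloghi _
      _ = C ^ B0 * (k : ℝ) ^ B0 := mul_pow _ _ _
      _ ≤ k * (k : ℝ) ^ B0 := by
          apply mul_le_mul_of_nonneg_right _ (by positivity)
          refine hm1.trans ?_
          exact_mod_cast (by omega : m1 ≤ k)
      _ = _ := by rw [pow_succ]; ring
  have hz2' : (z : ℝ) ≤ Real.log ((b ^ K : ℕ) : ℝ) ^ (2 * Ez) := by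
    refine hz2.trans ?_
    rw [pow_mul]
    apply pow_le_pow_left₀ hk0.le
    nlinarith
  have hbe : (b : ℝ) ^ (e + B) ≤ k := by exact_mod_cast (by omega : b ^ (e + B) ≤ k)
  have hthr : ((b ^ K : ℕ) : ℝ) / (K : ℝ) ^ (U + 1) ≤ ((b ^ k : ℕ) : ℝ) / (k : ℝ) ^ U := by
    have hK0 : (0 : ℝ) < K := lt_of_lt_of_le hk0 hkK
    rw [div_le_div_iff₀ (by positivity) (by positivity)]
    have h1 : (k : ℝ) ^ (U + 1) ≤ (K : ℝ) ^ (U + 1) := pow_le_pow_left₀ hk0.le hkK _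
    push_cast
    calc (b : ℝ) ^ K * (k : ℝ) ^ U = (b : ℝ) ^ k * ((b : ℝ) ^ (e + B) * (k : ℝ) ^ U) := by rw [hKk, pow_add]; ring
      _ ≤ (b : ℝ) ^ k * (k * (k : ℝ) ^ U) := by gcongr
      _ = (b : ℝ) ^ k * (k : ℝ) ^ (U + 1) := by rw [pow_succ]; ring
      _ ≤ _ := by gcongr
  have hδ : 1 / (K : ℝ) ^ (U + 1) ≤ 1 / (k : ℝ) ^ U := by
    apply one_div_le_one_div_of_le (by positivity)
    calc (k : ℝ) ^ U ≤ (K : ℝ) ^ U := pow_le_pow_left₀ hk0.le hkK _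
      _ ≤ (K : ℝ) ^ (U + 1) := pow_le_pow_right₀ (by linarith) (by omega)
  rw [pl_eq, hk]
  have hfin : ∀ y < b, ∑ g ∈ Gs b m, (if P (val b (2 * m + s) g + s * y * b ^ m) then pw (w0 b) g else 0) ≤ 1 / ((2 * m + s : ℕ) : ℝ) ^ U → True := fun _ _ _ => trivial
  clear hfin
  suffices hfin : ∀ y < b, ∑ g ∈ Gs b m, (if P (val b (2 * m + s) g + s * y * b ^ m) then pw (w0 b) g else 0) ≤ 1 / ((2 * m + s : ℕ) : ℝ) ^ U by
    have h9 := pals_of_prob b m s hb (by omega) hs P (1 / ((2 * m + s : ℕ) : ℝ) ^ U) (by positivity) (by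
      intro y hy
      convert hfin y hy)
    convert h9
  intro y hy
  have hcc := cc_bound b B m s hb hs κ 0 (by rw [abs_zero]; positivity) y hy
  rw [zero_add, ← he] at hcc
  obtain ⟨cc, hccd⟩ : ∃ cc : ℤ, cc = κ * ((s * y * b ^ m : ℕ) : ℤ) := ⟨_, rfl⟩
  rw [← hccd] at hcc
  have hlaw := hD m K hK (by omega) (w0 b) (w0_mirr b m hb) cc
  have hYb : ∀ g ∈ Gs b m, |cc + κ * (val b (2 * m + s) g : ℕ)| < (b : ℤ) ^ (2 * m + s + e) := by
    intro g hg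
    have h0 : ((val b (2 * m + s) g : ℕ) : ℤ) < 2 * (b : ℤ) ^ (2 * m + s) := by
      exact_mod_cast val_lt b m s (by omega) g hg
    calc |cc + κ * (val b (2 * m + s) g : ℕ)| ≤
          |cc| + |κ * (val b (2 * m + s) g : ℕ)| := abs_add_le _ _
      _ = |cc| + |κ| * (val b (2 * m + s) g : ℕ) := by
          rw [abs_mul, abs_of_nonneg (by positivity : (0 : ℤ) ≤ ((val b (2 * m + s) g : ℕ) : ℤ))]
      _ < |cc| + |κ| * (2 * (b : ℤ) ^ (2 * m + s)) := by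
          have := mul_lt_mul_of_pos_left h0 (abs_pos.2 hκ)
          linarith
      _ ≤ _ := hcc
  have hbB : B + 1 ≤ b ^ B := by
    have : B < b ^ B := Nat.lt_pow_self (by omega)
    omega
  have hsz : (B : ℤ) * (b : ℤ) ^ (2 * m + s) + (b : ℤ) ^ (2 * m + s + e) ≤ (b : ℤ) ^ K := by
    have h1 : (b : ℤ) ^ K = (b : ℤ) ^ (2 * m + s + e) * (b : ℤ) ^ B := by rw [hK, ← pow_add]; congr 1; ring
    have h2 : ((B : ℤ) + 1) ≤ (b : ℤ) ^ B := by exact_mod_cast hbB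
    have h3 : (b : ℤ) ^ (2 * m + s) ≤ (b : ℤ) ^ (2 * m + s + e) :=
      pow_le_pow_right₀ (by exact_mod_cast (by omega : 1 ≤ b)) (by omega)
    rw [h1]
    have h4 : (0 : ℤ) ≤ (b : ℤ) ^ (2 * m + s + e) := by positivity
    have h5 : (B : ℤ) * (b : ℤ) ^ (2 * m + s) ≤ B * (b : ℤ) ^ (2 * m + s + e) := mul_le_mul_of_nonneg_left h3 (by positivity)
    have h6 := mul_le_mul_of_nonneg_left h2 h4
    linarith
  have key := h0 K (by omega) z hz1' hz2' _ (Gs b m) (pw (w0 b)) _ hlaw (B * b ^ k) (by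
      intro g hg
      have h1 := hYb g hg
      rw [abs_lt] at h1
      have h2 : (b : ℤ) ^ (2 * m + s + e) ≤ (b : ℤ) ^ K := by
        refine pow_le_pow_right₀ (by exact_mod_cast (by omega : 1 ≤ b)) (by omega)
      push_cast
      rw [hk]
      constructor
      · linarith [h1.1]
      · linarith [h1.2]) (by
      have h1 : (B : ℤ) * (b : ℤ) ^ (2 * m + s) ≤ (b : ℤ) ^ K := by
        have : (0 : ℤ) ≤ (b : ℤ) ^ (2 * m + s + e) := by positivity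
        linarith
      rw [hk]
      exact_mod_cast h1) G (by intro n; rw [pow_zero]; exact hG n)
      (fun g => P (val b (2 * m + s) g + s * y * b ^ m)) (by
      intro g hg hE
      left
      refine ⟨B * b ^ k, le_rfl, lt_of_le_of_lt hthr ?_⟩
      have h1 := hP _ hE
      refine lt_of_lt_of_eq h1 ?_
      congr 1
      apply sum_congr rfl
      intro n _
      congr 2
      rw [hccd]
      push_cast
      ring)
  exact key.trans (hδ.trans (le_of_eq (by rw [hk])))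

/-- the bilinear estimate for the palindromes -/
theorem pal_core (b B U : ℕ) (hb : 2 ≤ b) (κ : ℤ) (hκ : κ ≠ 0) : ∃ B0 : ℕ, ∀ Ez : ℕ, ∃ k₀ : ℕ, ∀ k : ℕ, k₀ ≤ k →
    ∀ z : ℕ, (k : ℝ) ^ B0 ≤ z → (z : ℝ) ≤ (k : ℝ) ^ Ez → ∀ G : ℕ → ℝ, (∀ n, |G n| ≤ 1) →
    ∀ P : ℕ → Prop, [DecidablePred P] → (∀ v, P v → ((b ^ k : ℕ) : ℝ) / (k : ℝ) ^ U < |∑ n ∈ Icc 1 (B * b ^ k), G n * dI z ((n : ℤ) + κ * v)|) →
    (((pl b k).filter P).card : ℝ) ≤ (pl b k).card * (1 / (k : ℝ) ^ U) := by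
  obtain ⟨A0, h0⟩ := core_s b B U hb κ hκ 0 (by norm_num)
  obtain ⟨A1, h1⟩ := core_s b B U hb κ hκ 1 le_rfl
  refine ⟨A0 + A1, fun Ez => ?_⟩
  obtain ⟨m0, h0⟩ := h0 Ez
  obtain ⟨m1, h1⟩ := h1 Ez
  refine ⟨2 * (m0 + m1) + 2, fun k hk z hz1 hz2 G hG P _ hP => ?_⟩
  have hk1 : (1 : ℝ) ≤ k := by exact_mod_cast (by omega : 1 ≤ k)
  rcases Nat.even_or_odd' k with ⟨m, hm | hm⟩
  · exact h0 m (by omega) k (by omega) z ((pow_le_pow_right₀ hk1 (by omega)).trans hz1) hz2 G hG P hP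
  · exact h1 m (by omega) k (by omega) z ((pow_le_pow_right₀ hk1 (by omega)).trans hz1) hz2 G hG P hP

lemma dI_bd (z : ℕ) (m : ℤ) (Y : ℕ) (hm : m ≤ Y) : |dI z m| ≤ Real.log Y + (Vz z)⁻¹ := by
  have hV := Vz_pos z
  have hL : 0 ≤ Real.log (Y : ℝ) := Real.log_natCast_nonneg Y
  have h1 : lamI m ≤ Real.log Y := by
    unfold lamI
    split_ifs with h
    · refine ArithmeticFunction.vonMangoldt_le_log.trans ?_
      apply Real.log_le_log (by exact_mod_cast (by omega : 0 < m.toNat))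
      exact_mod_cast (by omega : m.toNat ≤ Y)
    · exact hL
  have h2 : lamzI z m ≤ (Vz z)⁻¹ := by
    unfold lamzI lamz
    split_ifs
    · exact le_rfl
    · positivity
    · positivity
  have h3 := lamI_nonneg m
  have h4 := lamzI_nonneg z m
  unfold dI
  rw [abs_le]
  constructor
  · linarith
  · have : 0 < (Vz z)⁻¹ := by positivity
    linarith

/-- the dual estimate: almost all integers `n` -/
theorem pal_dual (b B U : ℕ) (hb : 2 ≤ b) (κ : ℤ) (hκ : κ ≠ 0) : ∃ B0 : ℕ, ∀ Ez : ℕ, ∃ k₀ : ℕ, ∀ k : ℕ, k₀ ≤ k →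
    ∀ z : ℕ, (k : ℝ) ^ B0 ≤ z → (z : ℝ) ≤ (k : ℝ) ^ Ez → ∀ S : Finset ℕ, S ⊆ pl b k →
    ∑ n ∈ Icc 1 (B * b ^ k), |∑ v ∈ S, dI z ((n : ℤ) + κ * v)| ≤ (pl b k).card * ((b ^ k : ℕ) / (k : ℝ) ^ U) := by
  classical
  obtain ⟨B0, h0⟩ := pal_core b B (U + 4) hb κ hκ
  refine ⟨B0, fun Ez => ?_⟩
  obtain ⟨k0, h0⟩ := h0 Ez
  obtain ⟨k1, h1⟩ := Vz_inv_small (2 * Ez)
  have hbr : (2 : ℝ) ≤ b := by exact_mod_cast hb
  have hb0 : (0 : ℝ) < b := by linarith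
  have hlb0 : 0 < Real.log b := Real.log_pos (by linarith)
  obtain ⟨k2, h2⟩ := exists_nat_ge (Real.log ((B + κ.natAbs : ℕ) : ℝ) + 2 * Real.log b + B + 2)
  refine ⟨k0 + k1 + k2 + 4, fun k hk z hz1 hz2 S hS => ?_⟩
  have hkr : (4 : ℝ) ≤ k := by exact_mod_cast (by omega : 4 ≤ k)
  have hk0 : (0 : ℝ) < k := by linarith
  have hkk2 : Real.log ((B + κ.natAbs : ℕ) : ℝ) + 2 * Real.log b + B + 2 ≤ k := h2.trans (by exact_mod_cast (by omega : k2 ≤ k))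
  obtain ⟨X, hX⟩ : ∃ X, X = b ^ k := ⟨_, rfl⟩
  have hX1 : 1 ≤ X := by rw [hX]; exact Nat.one_le_pow _ _ (by omega)
  have hXk : k < X := by rw [hX]; exact Nat.lt_pow_self (by omega)
  have hX0 : (0 : ℝ) < X := by exact_mod_cast hX1
  have hκ1 : 1 ≤ κ.natAbs := Int.natAbs_pos.2 hκ
  have hlogX : Real.log (X : ℝ) = k * Real.log b := by rw [hX]; push_cast; rw [Real.log_pow]
  have hB0 : (0 : ℝ) ≤ B := Nat.cast_nonneg _
  have hV : (Vz z)⁻¹ ≤ k * Real.log b := by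
    rw [← hlogX]
    refine h1 X (by omega) z ?_ ?_
    · have : (1 : ℝ) ≤ z := (one_le_pow₀ (by linarith)).trans hz1
      exact_mod_cast this
    · refine hz2.trans ?_
      rw [hlogX, pow_mul]
      apply pow_le_pow_left₀ hk0.le
      have hlb : Real.log 2 ≤ Real.log b := Real.log_le_log (by norm_num) hbr
      have hl2 := Real.log_two_gt_d9
      have h5 : (k : ℝ) / 2 ≤ k * Real.log b := by nlinarith
      nlinarith
  have hlY : Real.log (((B + κ.natAbs) * X : ℕ) : ℝ) = Real.log ((B + κ.natAbs : ℕ) : ℝ) + k * Real.log b := by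
    rw [Nat.cast_mul, Real.log_mul (by exact_mod_cast (by omega : B + κ.natAbs ≠ 0)) (by positivity), hlogX]
  have hlY0 : 0 ≤ Real.log ((B + κ.natAbs : ℕ) : ℝ) := Real.log_natCast_nonneg _
  have hbd : ∀ v ∈ pl b k, ∀ n ∈ Icc 1 (B * X), |dI z ((n : ℤ) + κ * v)| ≤ (k : ℝ) ^ 2 := by
    intro v hv n hn
    have hv2 : v < X := by
      unfold pl at hv
      rw [mem_filter, mem_range] at hv
      rw [hX]
      exact hv.1
    rw [mem_Icc] at hn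
    refine (dI_bd z _ ((B + κ.natAbs) * X) ?_).trans ?_
    · have h5 : κ * (v : ℤ) ≤ (κ.natAbs : ℤ) * X := by
        calc κ * (v : ℤ) ≤ (κ.natAbs : ℤ) * v := mul_le_mul_of_nonneg_right Int.le_natAbs (by positivity)
          _ ≤ _ := mul_le_mul_of_nonneg_left (by exact_mod_cast hv2.le) (by positivity)
      have h6 : (n : ℤ) ≤ B * X := by exact_mod_cast hn.2
      rw [Nat.cast_mul, Nat.cast_add]
      linarith
    · rw [hlY]
      nlinarith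
  obtain ⟨Gf, hGf⟩ : ∃ Gf : ℕ → ℝ, Gf = fun n : ℕ => if 0 ≤ ∑ v ∈ S, dI z ((n : ℤ) + κ * v) then 1 else -1 := ⟨_, rfl⟩
  have hG1 : ∀ n, |Gf n| ≤ 1 := by
    intro n
    rw [hGf]
    simp only
    split_ifs <;> simp
  have hG2 : ∀ n : ℕ, |∑ v ∈ S, dI z ((n : ℤ) + κ * v)| = Gf n * ∑ v ∈ S, dI z ((n : ℤ) + κ * v) := by
    intro n
    rw [hGf]
    simp only
    split_ifs with h
    · rw [abs_of_nonneg h, one_mul]
    · rw [abs_of_neg (not_le.1 h)]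
      ring
  have key := h0 k (by omega) z hz1 hz2 Gf hG1
    (fun v => ((b ^ k : ℕ) : ℝ) / (k : ℝ) ^ (U + 4) < |∑ n ∈ Icc 1 (B * b ^ k), Gf n * dI z ((n : ℤ) + κ * v)|) (fun v h => h)
  rw [← hX] at key ⊢
  obtain ⟨F, hF⟩ : ∃ F : ℕ → ℝ, F = fun v : ℕ => |∑ n ∈ Icc 1 (B * X), Gf n * dI z ((n : ℤ) + κ * v)| := ⟨_, rfl⟩
  have hF1 : ∀ v ∈ pl b k, F v ≤ X * (k : ℝ) ^ 3 := by
    intro v hv
    rw [hF]
    simp only
    refine (abs_sum_le_sum_abs _ _).trans ?_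
    calc ∑ n ∈ Icc 1 (B * X), |Gf n * dI z ((n : ℤ) + κ * v)| ≤ ∑ _n ∈ Icc 1 (B * X), (k : ℝ) ^ 2 := by
          apply sum_le_sum
          intro n hn
          rw [abs_mul]
          calc |Gf n| * |dI z ((n : ℤ) + κ * v)| ≤ 1 * (k : ℝ) ^ 2 := mul_le_mul (hG1 n) (hbd v hv n hn) (abs_nonneg _) zero_le_one
            _ = _ := one_mul _
      _ = B * X * (k : ℝ) ^ 2 := by rw [sum_const, Nat.card_Icc, Nat.add_sub_cancel, nsmul_eq_mul]; push_cast; ring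
      _ ≤ k * X * (k : ℝ) ^ 2 := by
          have : (B : ℝ) ≤ k := by linarith
          gcongr
      _ = _ := by ring
  have hFS : ∑ n ∈ Icc 1 (B * X), |∑ v ∈ S, dI z ((n : ℤ) + κ * v)| ≤ ∑ v ∈ pl b k, F v := by
    calc ∑ n ∈ Icc 1 (B * X), |∑ v ∈ S, dI z ((n : ℤ) + κ * v)| = ∑ n ∈ Icc 1 (B * X), ∑ v ∈ S, Gf n * dI z ((n : ℤ) + κ * v) := by
          apply sum_congr rfl
          intro n _
          rw [hG2, mul_sum]
      _ = ∑ v ∈ S, ∑ n ∈ Icc 1 (B * X), Gf n * dI z ((n : ℤ) + κ * v) := sum_comm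
      _ ≤ ∑ v ∈ S, F v := by
          apply sum_le_sum
          intro v _
          rw [hF]
          exact le_abs_self _
      _ ≤ _ := sum_le_sum_of_subset_of_nonneg hS (fun v _ _ => by rw [hF]; exact abs_nonneg _)
  have hpt : ∀ v ∈ pl b k, F v ≤ X / (k : ℝ) ^ (U + 4) + (if (X : ℝ) / (k : ℝ) ^ (U + 4) < F v then X * (k : ℝ) ^ 3 else 0) := by
    intro v hv
    split_ifs with h
    · have := hF1 v hv
      have h5 : (0 : ℝ) ≤ X / (k : ℝ) ^ (U + 4) := by positivity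
      linarith
    · rw [add_zero]
      exact not_lt.1 h
  have hsum : ∑ v ∈ pl b k, F v ≤ (pl b k).card * (X / (k : ℝ) ^ (U + 4)) + ((pl b k).card * (1 / (k : ℝ) ^ (U + 4))) * (X * (k : ℝ) ^ 3) := by
    refine (sum_le_sum hpt).trans ?_
    rw [sum_add_distrib, sum_const, nsmul_eq_mul, ← sum_filter, sum_const, nsmul_eq_mul]
    have h5 : (((pl b k).filter (fun v => (X : ℝ) / (k : ℝ) ^ (U + 4) < F v)).card : ℝ) ≤ (pl b k).card * (1 / (k : ℝ) ^ (U + 4)) := by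
      rw [hF]
      exact key
    have h6 := mul_le_mul_of_nonneg_right h5 (by positivity : (0 : ℝ) ≤ X * (k : ℝ) ^ 3)
    linarith
  refine hFS.trans (hsum.trans ?_)
  have hP0 : (0 : ℝ) ≤ (pl b k).card := Nat.cast_nonneg _
  have e1 : (X : ℝ) / (k : ℝ) ^ (U + 4) = (X / (k : ℝ) ^ U) * (1 / (k : ℝ) ^ 4) := by rw [pow_add]; field_simp
  have e2 : (1 / (k : ℝ) ^ (U + 4)) * (X * (k : ℝ) ^ 3) = (X / (k : ℝ) ^ U) * (1 / k) := by rw [pow_add]; field_simp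
  rw [mul_assoc, e1, e2, ← mul_add, ← mul_add]
  apply mul_le_mul_of_nonneg_left _ hP0
  apply mul_le_of_le_one_right (by positivity)
  have h7 : 1 / (k : ℝ) ^ 4 ≤ 1 / 4 := by
    apply one_div_le_one_div_of_le (by norm_num)
    calc (4 : ℝ) ≤ k := hkr
      _ ≤ (k : ℝ) ^ 4 := le_self_pow₀ (by linarith) (by norm_num)
  have h8 : 1 / (k : ℝ) ≤ 1 / 4 := one_div_le_one_div_of_le (by norm_num) hkr
  linarith

end Pool.Agent.E8helper28.PD
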