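import Pool.Agent.E8helper28.PD.Pd1

set_option autoImplicit false
set_option maxHeartbeats 4000000

/-!
# Primes `n + κ v`, `v` a palindrome, for almost all `n`: counting (helper28)
-/

namespace Pool.Agent.E8helper28.PD

open Finset
open Pool.Agent.H373R2.T7
open Pool.Agent.TH872.Tr (IsPalindrome)
open Pool.Agent.W93.AU (dI)

/-- the value is prime -/
def nP (κ : ℤ) (n v : ℕ) : Prop := 0 < (n : ℤ) + κ * v ∧ ((n : ℤ) + κ * v).toNat.Prime

/-- the value has no small prime factor -/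
def nR (κ : ℤ) (z n v : ℕ) : Prop := 0 < (n : ℤ) + κ * v ∧ ∀ p ∈ pz z, ¬ p ∣ ((n : ℤ) + κ * v).toNat

open Classical in
/-- the number of the prime values -/
noncomputable def cp (κ : ℤ) (n : ℕ) (S : Finset ℕ) : ℕ := (S.filter (fun v => nP κ n v)).card

open Classical in
/-- the number of the rough values -/
noncomputable def cr (κ : ℤ) (z n : ℕ) (S : Finset ℕ) : ℕ := (S.filter (fun v => nR κ z n v)).card

/-- the number of the small values -/
def sm (κ : ℤ) (n t : ℕ) (S : Finset ℕ) : ℕ := (S.filter (fun v : ℕ => 0 < (n : ℤ) + κ * v ∧ (n : ℤ) + κ * v ≤ t)).card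

/-- the prime powers -/
noncomputable def ppf (m : ℤ) : ℝ := if 1 ≤ m ∧ ¬ m.toNat.Prime then ArithmeticFunction.vonMangoldt m.toNat else 0

open Classical in
/-- the primes -/
noncomputable def lp (κ : ℤ) (n v : ℕ) : ℝ := if nP κ n v then Real.log (((n : ℤ) + κ * v).toNat : ℕ) else 0

lemma ppf_nonneg (m : ℤ) : 0 ≤ ppf m := by
  unfold ppf
  split_ifs
  · exact ArithmeticFunction.vonMangoldt_nonneg
  · exact le_rfl

lemma lamI_split (κ : ℤ) (n v : ℕ) : lamI ((n : ℤ) + κ * v) = lp κ n v + ppf ((n : ℤ) + κ * v) := by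
  classical
  unfold lp ppf nP lamI
  by_cases h1 : 1 ≤ (n : ℤ) + κ * v
  · rw [if_pos h1]
    by_cases h2 : ((n : ℤ) + κ * v).toNat.Prime
    · rw [if_pos ⟨by omega, h2⟩, if_neg (by tauto), add_zero, ArithmeticFunction.vonMangoldt_apply_prime h2]
    · rw [if_neg (by tauto), if_pos ⟨h1, h2⟩, zero_add]
  · rw [if_neg h1, if_neg (by rintro ⟨h2, _⟩; omega), if_neg (by tauto), add_zero]

lemma sum_lamzI (κ : ℤ) (z n : ℕ) (S : Finset ℕ) : ∑ v ∈ S, lamzI z ((n : ℤ) + κ * v) = (Vz z)⁻¹ * cr κ z n S := by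
  classical
  unfold cr
  rw [card_filter]
  push_cast
  rw [mul_sum]
  apply sum_congr rfl
  intro v _
  unfold lamzI lamz nR
  by_cases h1 : 1 ≤ (n : ℤ) + κ * v
  · rw [if_pos h1]
    by_cases h2 : ∀ p ∈ pz z, ¬ p ∣ ((n : ℤ) + κ * v).toNat
    · rw [if_pos h2, if_pos ⟨by omega, h2⟩, mul_one]
    · rw [if_neg h2, if_neg (by tauto), mul_zero]
  · rw [if_neg h1, if_neg (by rintro ⟨h2, _⟩; omega), mul_zero]

lemma pp_total (M Y : ℕ) (hY : 1 ≤ Y) (c : ℤ) (hc : ∀ n ∈ Icc 1 M, (n : ℤ) + c ≤ Y) :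
    ∑ n ∈ Icc 1 M, ppf ((n : ℤ) + c) ≤ 2 * √(Y : ℝ) * Real.log Y := by
  classical
  have h2 := Chebyshev.psi_sub_theta_le (x := (Y : ℝ)) (by exact_mod_cast hY)
  rw [Chebyshev.psi_sub_theta_eq_sum_not_prime, Nat.floor_natCast, sum_filter] at h2
  refine le_trans ?_ h2
  have e1 : ∑ n ∈ Icc 1 M, ppf ((n : ℤ) + c) = ∑ n ∈ (Icc 1 M).filter (fun n : ℕ => 1 ≤ (n : ℤ) + c), ppf ((n : ℤ) + c) := by
    rw [sum_filter]
    apply sum_congr rfl
    intro n _
    split_ifs with h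
    · rfl
    · unfold ppf
      rw [if_neg (by tauto)]
  have e2 : ∑ n ∈ (Icc 1 M).filter (fun n : ℕ => 1 ≤ (n : ℤ) + c), ppf ((n : ℤ) + c) =
      ∑ y ∈ ((Icc 1 M).filter (fun n : ℕ => 1 ≤ (n : ℤ) + c)).image (fun n : ℕ => ((n : ℤ) + c).toNat),
        (if ¬ y.Prime then ArithmeticFunction.vonMangoldt y else (0 : ℝ)) := by
    rw [sum_image]
    · apply sum_congr rfl
      intro n hn
      rw [mem_filter] at hn
      unfold ppf
      by_cases hp : ((n : ℤ) + c).toNat.Prime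
      · rw [if_neg (by tauto), if_neg (not_not.2 hp)]
      · rw [if_pos ⟨hn.2, hp⟩, if_pos hp]
    · intro a ha d hd had
      rw [mem_coe, mem_filter] at ha hd
      simp only at had
      omega
  rw [e1, e2]
  apply sum_le_sum_of_subset_of_nonneg
  · intro y hy
    rw [mem_image] at hy
    obtain ⟨n, hn, rfl⟩ := hy
    rw [mem_filter] at hn
    have := hc n hn.1
    rw [mem_Ioc]
    omega
  · intro n _ _
    split_ifs
    · exact le_rfl
    · exact ArithmeticFunction.vonMangoldt_nonneg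

lemma sm_total (κ : ℤ) (M t : ℕ) (S : Finset ℕ) : ∑ n ∈ Icc 1 M, (sm κ n t S : ℝ) ≤ S.card * t := by
  classical
  have h1 : ∑ n ∈ Icc 1 M, sm κ n t S ≤ S.card * t := by
    unfold sm
    simp only [card_filter]
    rw [sum_comm]
    rw [← smul_eq_mul, ← sum_const]
    apply sum_le_sum
    intro v _
    rw [← card_filter]
    have h2 : ((Icc 1 M).filter (fun n : ℕ => 0 < (n : ℤ) + κ * v ∧ (n : ℤ) + κ * v ≤ t)).card ≤ (Icc 1 t).card := by
      apply card_le_card_of_injOn (fun n : ℕ => ((n : ℤ) + κ * v).toNat)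
      · intro n hn
        rw [mem_coe, mem_filter] at hn
        rw [mem_coe, mem_Icc]
        beta_reduce
        omega
      · intro a ha d hd had
        rw [mem_coe, mem_filter] at ha hd
        simp only at had
        omega
    rwa [Nat.card_Icc, Nat.add_sub_cancel] at h2
  exact_mod_cast h1

lemma markov (s : Finset ℕ) (f : ℕ → ℝ) (hf : ∀ n ∈ s, 0 ≤ f n) (t M : ℝ) (h : ∑ n ∈ s, f n ≤ M) :
    ((s.filter (fun n => t < f n)).card : ℝ) * t ≤ M := by
  calc ((s.filter (fun n => t < f n)).card : ℝ) * t = ∑ _n ∈ s.filter (fun n => t < f n), t := by rw [sum_const, nsmul_eq_mul]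
    _ ≤ ∑ n ∈ s.filter (fun n => t < f n), f n := sum_le_sum fun n hn => (mem_filter.1 hn).2.le
    _ ≤ ∑ n ∈ s, f n := sum_le_sum_of_subset_of_nonneg (filter_subset _ _) fun n hn _ => hf n hn
    _ ≤ M := h

lemma lp_hi (κ : ℤ) (n : ℕ) (S : Finset ℕ) (ℓ₁ : ℝ) (h : ∀ v ∈ S, 0 < (n : ℤ) + κ * v → Real.log (((n : ℤ) + κ * v).toNat : ℕ) ≤ ℓ₁) :
    ∑ v ∈ S, lp κ n v ≤ cp κ n S * ℓ₁ := by
  classical
  unfold cp lp
  rw [← sum_filter]
  calc _ ≤ ∑ _v ∈ S.filter (fun v => nP κ n v), ℓ₁ := sum_le_sum fun v hv => h v (mem_filter.1 hv).1 (mem_filter.1 hv).2.1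
    _ = _ := by rw [sum_const, nsmul_eq_mul]

lemma lp_lo (κ : ℤ) (n t : ℕ) (S : Finset ℕ) (ℓ₀ : ℝ) (h0 : 0 ≤ ℓ₀) (h : ℓ₀ ≤ Real.log ((t : ℝ) + 1)) :
    ((cp κ n S : ℝ) - sm κ n t S) * ℓ₀ ≤ ∑ v ∈ S, lp κ n v := by
  classical
  have h1 : cp κ n S ≤ (S.filter (fun v : ℕ => nP κ n v ∧ ¬ ((n : ℤ) + κ * v ≤ t))).card + sm κ n t S := by
    unfold cp sm
    have : S.filter (fun v => nP κ n v) ⊆ (S.filter (fun v : ℕ => nP κ n v ∧ ¬ ((n : ℤ) + κ * v ≤ t))) ∪
        (S.filter (fun v : ℕ => 0 < (n : ℤ) + κ * v ∧ (n : ℤ) + κ * v ≤ t)) := by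
      intro v hv
      rw [mem_filter] at hv
      rw [mem_union, mem_filter, mem_filter]
      by_cases h2 : (n : ℤ) + κ * v ≤ t
      · right
        exact ⟨hv.1, hv.2.1, h2⟩
      · left
        exact ⟨hv.1, hv.2, h2⟩
    exact (card_le_card this).trans (card_union_le _ _)
  have h2 : ((cp κ n S : ℝ) - sm κ n t S) ≤ (S.filter (fun v : ℕ => nP κ n v ∧ ¬ ((n : ℤ) + κ * v ≤ t))).card := by
    have : (cp κ n S : ℝ) ≤ (S.filter (fun v : ℕ => nP κ n v ∧ ¬ ((n : ℤ) + κ * v ≤ t))).card + sm κ n t S := by exact_mod_cast h1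
    linarith
  calc ((cp κ n S : ℝ) - sm κ n t S) * ℓ₀ ≤ (S.filter (fun v : ℕ => nP κ n v ∧ ¬ ((n : ℤ) + κ * v ≤ t))).card * ℓ₀ :=
        mul_le_mul_of_nonneg_right h2 h0
    _ = ∑ _v ∈ S.filter (fun v : ℕ => nP κ n v ∧ ¬ ((n : ℤ) + κ * v ≤ t)), ℓ₀ := by rw [sum_const, nsmul_eq_mul]
    _ ≤ ∑ v ∈ S.filter (fun v : ℕ => nP κ n v ∧ ¬ ((n : ℤ) + κ * v ≤ t)), lp κ n v := by
        apply sum_le_sum
        intro v hv
        rw [mem_filter] at hv
        unfold lp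
        rw [if_pos hv.2.1]
        refine h.trans ?_
        apply Real.log_le_log (by positivity)
        have h3 : t + 1 ≤ ((n : ℤ) + κ * v).toNat := by omega
        exact_mod_cast h3
    _ ≤ ∑ v ∈ S, lp κ n v := by
        apply sum_le_sum_of_subset_of_nonneg (filter_subset _ _)
        intro v _ _
        unfold lp
        split_ifs
        · exact Real.log_natCast_nonneg _
        · exact le_rfl

lemma fin_ineq (ε η W ℓ ℓ₀ ℓ₁ c sm SL Sp : ℝ) (hη : 0 < η) (hη1 : η ≤ 1 / 10) (hηε : 10 * η ≤ ε) (hW : 0 ≤ W) (hℓ : 0 < ℓ)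
    (hc : 0 ≤ c) (h1 : |SL - W| ≤ η * W) (h2 : SL ≤ Sp + η * W) (h2' : Sp ≤ SL) (h3 : Sp ≤ c * ℓ₁) (h4 : (c - sm) * ℓ₀ ≤ Sp)
    (h5 : sm ≤ η * (W / ℓ)) (h6 : (1 - η) * ℓ ≤ ℓ₀) (h7 : ℓ₁ ≤ (1 + η) * ℓ) :
    |c - W / ℓ| ≤ ε * (W / ℓ) := by
  obtain ⟨x, hx⟩ : ∃ x, x = W / ℓ := ⟨_, rfl⟩
  have hWx : W = x * ℓ := by rw [hx]; field_simp
  have hx0 : 0 ≤ x := by rw [hx]; positivity
  rw [← hx] at h5 ⊢
  rw [abs_le] at h1 ⊢
  have hεx : 10 * η * x ≤ ε * x := mul_le_mul_of_nonneg_right hηε hx0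
  have hηx : 0 ≤ η * x := by positivity
  constructor
  · have a1 : c * ℓ₁ ≤ c * ((1 + η) * ℓ) := mul_le_mul_of_nonneg_left h7 hc
    have a2 : (1 - 2 * η) * x * ℓ ≤ c * (1 + η) * ℓ := by
      have : (1 - 2 * η) * x * ℓ = W - η * W - η * W := by rw [hWx]; ring
      rw [this]
      linarith [h1.1]
    have a3 : (1 - 2 * η) * x ≤ c * (1 + η) := le_of_mul_le_mul_right a2 hℓ
    by_contra hcon
    push Not at hcon
    have a4 : c < x - 10 * η * x := by linarith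
    have a5 : c * (1 + η) ≤ (x - 10 * η * x) * (1 + η) := mul_le_mul_of_nonneg_right a4.le (by linarith)
    have a6 : (x - 10 * η * x) * (1 + η) = x - 9 * (η * x) - 10 * η * (η * x) := by ring
    have a7 : (1 - 2 * η) * x = x - 2 * (η * x) := by ring
    have a8 : 0 ≤ η * (η * x) := by positivity
    by_cases hx1 : η * x = 0
    · have : x = 0 := by
        rcases mul_eq_zero.1 hx1 with h | h
        · linarith
        · exact h
      rw [this] at a4
      linarith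
    · have : 0 < η * x := lt_of_le_of_ne hηx (Ne.symm hx1)
      nlinarith
  · by_cases hcs : c - sm ≤ 0
    · nlinarith
    · push Not at hcs
      have a1 : (c - sm) * ((1 - η) * ℓ) ≤ (c - sm) * ℓ₀ := mul_le_mul_of_nonneg_left h6 hcs.le
      have a2 : (c - sm) * (1 - η) * ℓ ≤ (1 + η) * x * ℓ := by
        have : (1 + η) * x * ℓ = W + η * W := by rw [hWx]; ring
        rw [this]
        linarith [h1.2]
      have a3 : (c - sm) * (1 - η) ≤ (1 + η) * x := le_of_mul_le_mul_right a2 hℓ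
      by_contra hcon
      push Not at hcon
      have a4 : x + 9 * (η * x) ≤ c - sm := by linarith
      have a5 : (x + 9 * (η * x)) * (1 - η) ≤ (c - sm) * (1 - η) := mul_le_mul_of_nonneg_right a4 (by linarith)
      have a6 : (x + 9 * (η * x)) * (1 - η) = x + 8 * (η * x) - 9 * η * (η * x) := by ring
      have a7 : (1 + η) * x = x + η * x := by ring
      have a8 : η * (η * x) ≤ 1 / 10 * (η * x) := mul_le_mul_of_nonneg_right hη1 hηx
      have a9 : η * x ≤ 0 := by nlinarith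
      have a10 : η * x = 0 := le_antisymm a9 hηx
      have a11 : x = 0 := by
        rcases mul_eq_zero.1 a10 with h | h
        · linarith
        · exact h
      rw [a11] at hcon h5
      have : c - 0 > 0 := by linarith
      rw [a11] at a3
      nlinarith

end Pool.Agent.E8helper28.PD
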