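import Pool.Agent.E8helper28.PD.Pd2

set_option autoImplicit false
set_option maxHeartbeats 4000000

/-!
# Primes `n + κ v`, `v` a palindrome, for almost all `n`: the theorem (helper28)
-/

namespace Pool.Agent.E8helper28.PD

open Finset
open Pool.Agent.H373R2.T7
open Pool.Agent.TH872.Tr (IsPalindrome)
open Pool.Agent.W93.AU (dI)

lemma large_k (b C A1 D : ℕ) (hb : 2 ≤ b) (η : ℝ) (hη : 0 < η) : ∃ k₀ : ℕ, ∀ k : ℕ, k₀ ≤ k →
    Real.log b ≤ η * k ∧ Real.log ((C : ℕ) : ℝ) ≤ η * (k * Real.log b) ∧ (A1 : ℝ) * Real.log k ≤ η * (k * Real.log b) ∧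
    2 * √((C * b ^ k : ℕ) : ℝ) * Real.log ((C * b ^ k : ℕ) : ℝ) * (k : ℝ) ^ D ≤ ((b ^ k : ℕ) : ℝ) := by
  have hbr : (2 : ℝ) ≤ b := by exact_mod_cast hb
  have hb0 : (0 : ℝ) < b := by linarith
  have hlb : Real.log 2 ≤ Real.log b := Real.log_le_log (by norm_num) hbr
  have hl2 := Real.log_two_gt_d9
  have hlb0 : 0 < Real.log b := by linarith
  obtain ⟨k1, h1⟩ := exists_nat_ge (Real.log b / η)
  obtain ⟨k2, h2⟩ := exists_nat_ge (2 * Real.log ((C : ℕ) : ℝ) / η)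
  have hlog := Real.isLittleO_log_id_atTop.def (c := η / (2 * (A1 + 1))) (by positivity)
  have hlog2 := tendsto_natCast_atTop_atTop (R := ℝ) |>.eventually hlog
  rw [Filter.eventually_atTop] at hlog2
  obtain ⟨k3, h3⟩ := hlog2
  have hsb : 1 < √(b : ℝ) := by
    rw [Real.lt_sqrt zero_le_one]
    linarith
  have hpow := (isLittleO_pow_const_const_pow_of_one_lt (R := ℝ) (D + 2) hsb).def (c := 1 / (2 * √(C : ℝ) + 1)) (by positivity)
  rw [Filter.eventually_atTop] at hpow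
  obtain ⟨k4, h4⟩ := hpow
  obtain ⟨k5, h5⟩ := exists_nat_ge (Real.log ((C : ℕ) : ℝ) + Real.log b)
  refine ⟨k1 + k2 + k3 + k4 + k5 + 4, fun k hk => ?_⟩
  have hkr : (4 : ℝ) ≤ k := by exact_mod_cast (by omega : 4 ≤ k)
  have hk0 : (0 : ℝ) < k := by linarith
  have g1 : Real.log b / η ≤ k := h1.trans (by exact_mod_cast (by omega : k1 ≤ k))
  have g2 : 2 * Real.log ((C : ℕ) : ℝ) / η ≤ k := h2.trans (by exact_mod_cast (by omega : k2 ≤ k))
  have g3 := h3 k (by omega)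
  have g4 := h4 k (by omega)
  have g5 : Real.log ((C : ℕ) : ℝ) + Real.log b ≤ k := h5.trans (by exact_mod_cast (by omega : k5 ≤ k))
  rw [div_le_iff₀ hη] at g1 g2
  have hlC : 0 ≤ Real.log ((C : ℕ) : ℝ) := Real.log_natCast_nonneg _
  refine ⟨by linarith, ?_, ?_, ?_⟩
  · have : k * η * Real.log 2 ≤ k * η * Real.log b := by gcongr
    nlinarith
  · rw [Real.norm_of_nonneg (Real.log_nonneg (by linarith)), id, Real.norm_of_nonneg hk0.le] at g3
    have hA : (A1 : ℝ) ≤ A1 + 1 := by linarith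
    have hA0 : (0 : ℝ) ≤ A1 := Nat.cast_nonneg _
    calc (A1 : ℝ) * Real.log k ≤ (A1 + 1) * (η / (2 * (A1 + 1)) * k) :=
          mul_le_mul hA g3 (Real.log_nonneg (by linarith)) (by linarith)
      _ = η * (k * (1 / 2)) := by field_simp
      _ ≤ η * (k * Real.log b) := by gcongr; linarith
  · rw [Real.norm_of_nonneg (by positivity), Real.norm_of_nonneg (by positivity)] at g4
    by_cases hC : C = 0
    · subst hC
      simp
    have hCr : (1 : ℝ) ≤ C := by exact_mod_cast Nat.one_le_iff_ne_zero.2 hC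
    have e1 : √((C * b ^ k : ℕ) : ℝ) = √(C : ℝ) * √(b : ℝ) ^ k := by
      push_cast
      rw [Real.sqrt_mul (by positivity)]
      congr 1
      rw [Real.sqrt_eq_iff_mul_self_eq (by positivity) (by positivity), ← mul_pow, Real.mul_self_sqrt hb0.le]
    have e2 : Real.log ((C * b ^ k : ℕ) : ℝ) ≤ (k : ℝ) ^ 2 := by
      push_cast
      rw [Real.log_mul (by positivity) (by positivity), Real.log_pow]
      nlinarith
    have e3 : ((b ^ k : ℕ) : ℝ) = √(b : ℝ) ^ k * √(b : ℝ) ^ k := by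
      push_cast
      rw [← mul_pow, Real.mul_self_sqrt hb0.le]
    rw [e1, e3]
    have hs : 0 < √(b : ℝ) ^ k := by positivity
    have hsC : 0 ≤ √(C : ℝ) := Real.sqrt_nonneg _
    calc 2 * (√(C : ℝ) * √(b : ℝ) ^ k) * Real.log ((C * b ^ k : ℕ) : ℝ) * (k : ℝ) ^ D
        ≤ 2 * (√(C : ℝ) * √(b : ℝ) ^ k) * (k : ℝ) ^ 2 * (k : ℝ) ^ D := by gcongr
      _ = (2 * √(C : ℝ)) * √(b : ℝ) ^ k * (k : ℝ) ^ (D + 2) := by rw [pow_add]; ring
      _ ≤ (2 * √(C : ℝ) + 1) * √(b : ℝ) ^ k * (1 / (2 * √(C : ℝ) + 1) * √(b : ℝ) ^ k) := by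
          gcongr
          linarith
      _ = _ := by field_simp

/-- the property of one `n` -/
def Prop1 {m : ℕ} (b k A z : ℕ) (κ : ℤ) (ε : ℝ) (𝒮 : Fin m → Finset ℕ) (n : ℕ) : Prop :=
  ∀ l, ((pl b k).card : ℝ) / (k : ℝ) ^ A ≤ cr κ z n (𝒮 l) →
    |(cp κ n (𝒮 l) : ℝ) - cr κ z n (𝒮 l) / (Vz z * Real.log ((b ^ k : ℕ) : ℝ))| ≤
      ε * (cr κ z n (𝒮 l) / (Vz z * Real.log ((b ^ k : ℕ) : ℝ)))

open Classical in
theorem pal_main (b B T U A : ℕ) (hb : 2 ≤ b) (κ : ℤ) (hκ : κ ≠ 0) (ε : ℝ) (hε : 0 < ε) : ∃ E₀ : ℕ, ∀ E : ℕ, E₀ ≤ E →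
    ∃ k₀ : ℕ, ∀ k : ℕ, k₀ ≤ k → ∀ m : ℕ, (m : ℝ) ≤ (k : ℝ) ^ T → ∀ 𝒮 : Fin m → Finset ℕ, (∀ l, 𝒮 l ⊆ pl b k) →
      (((Icc 1 (B * b ^ k)).filter (fun n => ¬ Prop1 b k A (k ^ E) κ ε 𝒮 n)).card : ℝ) ≤ ((b ^ k : ℕ) : ℝ) / (k : ℝ) ^ U := by
  obtain ⟨η, hηd⟩ : ∃ η : ℝ, η = min ε 1 / 10 := ⟨_, rfl⟩
  have hη : 0 < η := by rw [hηd]; exact div_pos (lt_min hε one_pos) (by norm_num)
  have hη1 : η ≤ 1 / 10 := by rw [hηd]; have := min_le_right ε 1; linarith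
  have hηε : 10 * η ≤ ε := by rw [hηd]; have := min_le_left ε 1; linarith
  obtain ⟨B0, h0⟩ := pal_dual b B (A + T + U + 4) hb κ hκ
  refine ⟨B0, fun E hE => ?_⟩
  obtain ⟨k0, h0⟩ := h0 E
  obtain ⟨k1, h1⟩ := large_k b (B + κ.natAbs) (A + U + 4) (A + 2 + (U + 2)) hb η hη
  refine ⟨k0 + k1 + 4, fun k hk m hm 𝒮 h𝒮 => ?_⟩
  obtain ⟨g1, g2, g3, g4⟩ := h1 k (by omega)
  have hbr : (2 : ℝ) ≤ b := by exact_mod_cast hb
  have hb0 : (0 : ℝ) < b := by linarith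
  have hlb : Real.log 2 ≤ Real.log b := Real.log_le_log (by norm_num) hbr
  have hl2 := Real.log_two_gt_d9
  have hlb0 : 0 < Real.log b := by linarith
  have hkr : (4 : ℝ) ≤ k := by exact_mod_cast (by omega : 4 ≤ k)
  have hk0 : (0 : ℝ) < k := by linarith
  obtain ⟨X, hX⟩ : ∃ X, X = b ^ k := ⟨_, rfl⟩
  have hX1 : 1 ≤ X := by rw [hX]; exact Nat.one_le_pow _ _ (by omega)
  have hX0 : (0 : ℝ) < X := by exact_mod_cast hX1
  have hlogX : Real.log (X : ℝ) = k * Real.log b := by rw [hX]; push_cast; rw [Real.log_pow]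
  have hκ1 : 1 ≤ κ.natAbs := Int.natAbs_pos.2 hκ
  obtain ⟨z, hz⟩ : ∃ z, z = k ^ E := ⟨_, rfl⟩
  have dual := h0 k (by omega) z (by rw [hz]; push_cast; exact pow_le_pow_right₀ (by linarith) hE) (by rw [hz]; push_cast; exact le_rfl)
  rw [← hz]
  rw [← hX] at dual g4 ⊢
  obtain ⟨P, hP⟩ : ∃ P : ℝ, P = (pl b k).card := ⟨_, rfl⟩
  rw [← hP] at dual
  have hprop : ∀ n, (∀ l, P / (k : ℝ) ^ A ≤ cr κ z n (𝒮 l) →
        |(cp κ n (𝒮 l) : ℝ) - cr κ z n (𝒮 l) / (Vz z * (k * Real.log b))| ≤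
          ε * (cr κ z n (𝒮 l) / (Vz z * (k * Real.log b)))) → Prop1 b k A z κ ε 𝒮 n := by
    intro n hn
    unfold Prop1
    rw [← hX, hlogX, ← hP]
    exact hn
  have hP0 : 0 ≤ P := by rw [hP]; exact Nat.cast_nonneg _
  by_cases hPz : P = 0
  · have hem : pl b k = ∅ := by
      rw [hPz] at hP
      exact card_eq_zero.1 (by exact_mod_cast hP.symm)
    have hz0 : (Icc 1 (B * X)).filter (fun n => ¬ Prop1 b k A z κ ε 𝒮 n) = ∅ := by
      rw [filter_eq_empty_iff]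
      intro n _ hn
      apply hn
      apply hprop
      intro l _
      have h5 : 𝒮 l = ∅ := by
        have := h𝒮 l
        rw [hem] at this
        exact subset_empty.1 this
      have h6 : cp κ n (𝒮 l) = 0 := by unfold cp; rw [h5, filter_empty, card_empty]
      have h7 : cr κ z n (𝒮 l) = 0 := by unfold cr; rw [h5, filter_empty, card_empty]
      rw [h6, h7]
      simp
    rw [hz0, card_empty]
    simp only [Nat.cast_zero]
    positivity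
  have hP1 : 0 < P := lt_of_le_of_ne hP0 (Ne.symm hPz)
  obtain ⟨Y, hY⟩ : ∃ Y, Y = (B + κ.natAbs) * X := ⟨_, rfl⟩
  have hY1 : 1 ≤ Y := by rw [hY]; exact Nat.mul_pos (by omega) (by omega)
  rw [← hY] at g4
  have hYb : ∀ v ∈ pl b k, ∀ n ∈ Icc 1 (B * X), (n : ℤ) + κ * v ≤ Y := by
    intro v hv n hn
    have hv2 : v < X := by
      unfold pl at hv
      rw [mem_filter, mem_range] at hv
      rw [hX]
      exact hv.1
    rw [mem_Icc] at hn
    have h5 : κ * (v : ℤ) ≤ (κ.natAbs : ℤ) * X := by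
      calc κ * (v : ℤ) ≤ (κ.natAbs : ℤ) * v := mul_le_mul_of_nonneg_right Int.le_natAbs (by positivity)
        _ ≤ _ := mul_le_mul_of_nonneg_left (by exact_mod_cast hv2.le) (by positivity)
    have h6 : (n : ℤ) ≤ B * X := by exact_mod_cast hn.2
    rw [hY, Nat.cast_mul, Nat.cast_add]
    linarith
  -- the three functions
  obtain ⟨t, ht⟩ : ∃ t : ℕ, t = ⌊(X : ℝ) / (k : ℝ) ^ (A + U + 4)⌋₊ := ⟨_, rfl⟩
  have ht1 : (t : ℝ) ≤ X / (k : ℝ) ^ (A + U + 4) := by rw [ht]; exact Nat.floor_le (by positivity)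
  have ht2 : (X : ℝ) / (k : ℝ) ^ (A + U + 4) ≤ t + 1 := by rw [ht]; exact (Nat.lt_floor_add_one _).le
  obtain ⟨θ, hθ⟩ : ∃ θ : ℝ, θ = P / (k : ℝ) ^ (A + 2) := ⟨_, rfl⟩
  have hθ0 : 0 < θ := by rw [hθ]; positivity
  have m1 := markov (Icc 1 (B * X)) (fun n => ∑ l, |∑ v ∈ 𝒮 l, dI z ((n : ℤ) + κ * v)|) (fun _ _ => sum_nonneg fun _ _ => abs_nonneg _) θ
    ((k : ℝ) ^ T * (P * (X / (k : ℝ) ^ (A + T + U + 4)))) (by
      rw [sum_comm]
      calc ∑ l, ∑ n ∈ Icc 1 (B * X), |∑ v ∈ 𝒮 l, dI z ((n : ℤ) + κ * v)| ≤ ∑ _l : Fin m, P * (X / (k : ℝ) ^ (A + T + U + 4)) :=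
            sum_le_sum fun l _ => dual (𝒮 l) (h𝒮 l)
        _ = m * (P * (X / (k : ℝ) ^ (A + T + U + 4))) := by rw [sum_const, card_univ, Fintype.card_fin, nsmul_eq_mul]
        _ ≤ _ := mul_le_mul_of_nonneg_right hm (by positivity))
  have m2 := markov (Icc 1 (B * X)) (fun n => ∑ v ∈ pl b k, ppf ((n : ℤ) + κ * v)) (fun _ _ => sum_nonneg fun _ _ => ppf_nonneg _) θ
    (P * (2 * √(Y : ℝ) * Real.log Y)) (by
      rw [sum_comm]
      calc ∑ v ∈ pl b k, ∑ n ∈ Icc 1 (B * X), ppf ((n : ℤ) + κ * v) ≤ ∑ _v ∈ pl b k, 2 * √(Y : ℝ) * Real.log Y :=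
            sum_le_sum fun v hv => pp_total (B * X) Y hY1 (κ * v) (fun n hn => hYb v hv n hn)
        _ = _ := by rw [sum_const, nsmul_eq_mul, hP])
  have m3 := markov (Icc 1 (B * X)) (fun n => (sm κ n t (pl b k) : ℝ)) (fun _ _ => Nat.cast_nonneg _) θ (P * t) (by
    rw [hP]
    exact sm_total κ (B * X) t (pl b k))
  have n1 : (((Icc 1 (B * X)).filter (fun n : ℕ => θ < ∑ l, |∑ v ∈ 𝒮 l, dI z ((n : ℤ) + κ * v)|)).card : ℝ) ≤ X / (k : ℝ) ^ (U + 2) := by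
    have e : (k : ℝ) ^ T * (P * (X / (k : ℝ) ^ (A + T + U + 4))) = (X / (k : ℝ) ^ (U + 2)) * θ := by
      rw [hθ, show A + T + U + 4 = T + ((U + 2) + (A + 2)) by ring, pow_add _ T, pow_add _ (U + 2)]
      field_simp
    rw [e] at m1
    exact le_of_mul_le_mul_right m1 hθ0
  have n2 : (((Icc 1 (B * X)).filter (fun n : ℕ => θ < ∑ v ∈ pl b k, ppf ((n : ℤ) + κ * v))).card : ℝ) ≤ X / (k : ℝ) ^ (U + 2) := by
    have e : P * (2 * √(Y : ℝ) * Real.log Y) ≤ (X / (k : ℝ) ^ (U + 2)) * θ := by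
      rw [hθ]
      have e1 : X / (k : ℝ) ^ (U + 2) * (P / (k : ℝ) ^ (A + 2)) = P * (X / (k : ℝ) ^ (A + 2 + (U + 2))) := by
        rw [pow_add _ (A + 2)]
        field_simp
      rw [e1]
      apply mul_le_mul_of_nonneg_left _ hP0
      rw [le_div_iff₀ (by positivity)]
      exact g4
    exact le_of_mul_le_mul_right (m2.trans e) hθ0
  have n3 : (((Icc 1 (B * X)).filter (fun n : ℕ => θ < (sm κ n t (pl b k) : ℝ))).card : ℝ) ≤ X / (k : ℝ) ^ (U + 2) := by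
    have e : P * t ≤ (X / (k : ℝ) ^ (U + 2)) * θ := by
      calc P * t ≤ P * (X / (k : ℝ) ^ (A + U + 4)) := mul_le_mul_of_nonneg_left ht1 hP0
        _ = _ := by
            rw [hθ, show A + U + 4 = (U + 2) + (A + 2) by ring, pow_add _ (U + 2)]
            field_simp
    exact le_of_mul_le_mul_right (m3.trans e) hθ0
  have hsub : (Icc 1 (B * X)).filter (fun n => ¬ Prop1 b k A z κ ε 𝒮 n) ⊆
      (Icc 1 (B * X)).filter (fun n : ℕ => θ < ∑ l, |∑ v ∈ 𝒮 l, dI z ((n : ℤ) + κ * v)|) ∪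
      ((Icc 1 (B * X)).filter (fun n : ℕ => θ < ∑ v ∈ pl b k, ppf ((n : ℤ) + κ * v)) ∪
      (Icc 1 (B * X)).filter (fun n : ℕ => θ < (sm κ n t (pl b k) : ℝ))) := by
    intro n hn
    rw [mem_filter] at hn
    obtain ⟨hn1, hn2⟩ := hn
    by_contra hcon
    rw [mem_union, mem_union, mem_filter, mem_filter, mem_filter] at hcon
    push Not at hcon
    obtain ⟨q1, q2, q3⟩ := hcon
    have q1 := q1 hn1
    have q2 := q2 hn1
    have q3 := q3 hn1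
    apply hn2
    apply hprop
    intro l hR
    have hV := Vz_pos z
    have hV1 : 1 ≤ (Vz z)⁻¹ := (one_le_inv₀ hV).2 (Vz_le_one z)
    obtain ⟨W, hW⟩ : ∃ W : ℝ, W = (Vz z)⁻¹ * cr κ z n (𝒮 l) := ⟨_, rfl⟩
    have hR0 : (0 : ℝ) ≤ cr κ z n (𝒮 l) := Nat.cast_nonneg _
    have hWR : (cr κ z n (𝒮 l) : ℝ) ≤ W := by rw [hW]; exact le_mul_of_one_le_left hR0 hV1
    have hW0 : 0 ≤ W := hR0.trans hWR
    have hθW : θ ≤ W / (k : ℝ) ^ 2 := by
      have : θ = (P / (k : ℝ) ^ A) / (k : ℝ) ^ 2 := by rw [hθ, pow_add]; field_simp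
      rw [this]
      exact div_le_div_of_nonneg_right (hR.trans hWR) (by positivity)
    have hθ1 : θ ≤ η * (W / (k * Real.log b)) := by
      refine hθW.trans ?_
      rw [← mul_div_assoc, div_le_div_iff₀ (by positivity) (by positivity)]
      calc W * (k * Real.log b) ≤ W * (k * (η * k)) := by gcongr
        _ = η * W * (k : ℝ) ^ 2 := by ring
    have hkl : 1 ≤ k * Real.log b := by nlinarith
    have hθ2 : θ ≤ η * W := by
      refine hθ1.trans ?_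
      apply mul_le_mul_of_nonneg_left _ hη.le
      exact div_le_self hW0 hkl
    have hdelta : |∑ v ∈ 𝒮 l, dI z ((n : ℤ) + κ * v)| ≤ θ :=
      (single_le_sum (f := fun l => |∑ v ∈ 𝒮 l, dI z ((n : ℤ) + κ * v)|) (fun _ _ => abs_nonneg _) (mem_univ l)).trans q1
    have e1 : ∑ v ∈ 𝒮 l, dI z ((n : ℤ) + κ * v) = ∑ v ∈ 𝒮 l, lamI ((n : ℤ) + κ * v) - W := by
      unfold dI
      rw [sum_sub_distrib, sum_lamzI, hW]
    rw [e1] at hdelta
    have e2 : ∑ v ∈ 𝒮 l, lamI ((n : ℤ) + κ * v) = ∑ v ∈ 𝒮 l, lp κ n v + ∑ v ∈ 𝒮 l, ppf ((n : ℤ) + κ * v) := by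
      rw [← sum_add_distrib]
      exact sum_congr rfl fun v _ => lamI_split κ n v
    have e3 : ∑ v ∈ 𝒮 l, ppf ((n : ℤ) + κ * v) ≤ θ :=
      (sum_le_sum_of_subset_of_nonneg (h𝒮 l) fun _ _ _ => ppf_nonneg _).trans q2
    have e4 : 0 ≤ ∑ v ∈ 𝒮 l, ppf ((n : ℤ) + κ * v) := sum_nonneg fun _ _ => ppf_nonneg _
    have e5 : (sm κ n t (𝒮 l) : ℝ) ≤ θ := by
      refine le_trans ?_ q3
      unfold sm
      exact_mod_cast card_le_card (filter_subset_filter _ (h𝒮 l))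
    have hℓ1 : Real.log (Y : ℝ) ≤ (1 + η) * (k * Real.log b) := by
      rw [hY, Nat.cast_mul, Real.log_mul (by exact_mod_cast (by omega : B + κ.natAbs ≠ 0)) (by positivity), hlogX]
      linarith
    have hℓ0 : (1 - η) * (k * Real.log b) ≤ Real.log ((t : ℝ) + 1) := by
      have h5 : Real.log ((X : ℝ) / (k : ℝ) ^ (A + U + 4)) ≤ Real.log ((t : ℝ) + 1) := Real.log_le_log (by positivity) ht2
      rw [Real.log_div (by positivity) (by positivity), hlogX, Real.log_pow] at h5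
      linarith
    have hfin := fin_ineq ε η W (k * Real.log b) ((1 - η) * (k * Real.log b)) ((1 + η) * (k * Real.log b)) (cp κ n (𝒮 l)) (sm κ n t (𝒮 l))
      (∑ v ∈ 𝒮 l, lamI ((n : ℤ) + κ * v)) (∑ v ∈ 𝒮 l, lp κ n v) hη hη1 hηε hW0 (by positivity) (Nat.cast_nonneg _)
      (hdelta.trans hθ2) (by rw [e2]; linarith) (by rw [e2]; linarith)
      ((lp_hi κ n (𝒮 l) (Real.log Y) (fun v hv hpos => by
        apply Real.log_le_log (by exact_mod_cast (by omega : 0 < ((n : ℤ) + κ * v).toNat))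
        have := hYb v (h𝒮 l hv) n hn1
        exact_mod_cast (by omega : ((n : ℤ) + κ * v).toNat ≤ Y))).trans (mul_le_mul_of_nonneg_left hℓ1 (Nat.cast_nonneg _)))
      (lp_lo κ n t (𝒮 l) _ (by
        have : 0 ≤ 1 - η := by linarith
        positivity) hℓ0)
      (e5.trans hθ1) le_rfl le_rfl
    have e6 : (cr κ z n (𝒮 l) : ℝ) / (Vz z * (k * Real.log b)) = W / (k * Real.log b) := by
      rw [hW]
      field_simp
    rw [e6]
    exact hfin
  have hcard := (card_le_card hsub).trans ((card_union_le _ _).trans (Nat.add_le_add_left (card_union_le _ _) _))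
  have hcard' : (((Icc 1 (B * X)).filter (fun n => ¬ Prop1 b k A z κ ε 𝒮 n)).card : ℝ) ≤
      ((Icc 1 (B * X)).filter (fun n : ℕ => θ < ∑ l, |∑ v ∈ 𝒮 l, dI z ((n : ℤ) + κ * v)|)).card +
      (((Icc 1 (B * X)).filter (fun n : ℕ => θ < ∑ v ∈ pl b k, ppf ((n : ℤ) + κ * v))).card +
      ((Icc 1 (B * X)).filter (fun n : ℕ => θ < (sm κ n t (pl b k) : ℝ))).card) := by exact_mod_cast hcard
  have hfin2 : 3 * ((X : ℝ) / (k : ℝ) ^ (U + 2)) ≤ X / (k : ℝ) ^ U := by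
    have e : (X : ℝ) / (k : ℝ) ^ (U + 2) = (X / (k : ℝ) ^ U) * (1 / (k : ℝ) ^ 2) := by rw [pow_add]; field_simp
    rw [e]
    have h5 : 1 / (k : ℝ) ^ 2 ≤ 1 / 3 := by
      apply one_div_le_one_div_of_le (by norm_num)
      nlinarith
    have h6 : 0 ≤ (X : ℝ) / (k : ℝ) ^ U := by positivity
    nlinarith
  linarith

end Pool.Agent.E8helper28.PD
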