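import Mathlib

set_option autoImplicit false
set_option maxHeartbeats 4000000

/-!
# Brun's sieve with truncated inclusion-exclusion (helper28)
-/

namespace Pool.Agent.E8helper28.PD

open Finset

/-- Bonferroni -/
lemma bonf (H : Finset ℕ) (r : ℕ) :
    |(if H = ∅ then (1 : ℝ) else 0) - ∑ T ∈ H.powerset.filter (fun T => T.card ≤ r), (-1 : ℝ) ^ T.card| ≤
      ∑ _T ∈ H.powerset.filter (fun T => T.card = r), (1 : ℝ) := by
  classical
  have e1 : ∑ T ∈ H.powerset.filter (fun T => T.card ≤ r), (-1 : ℝ) ^ T.card =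
      ∑ j ∈ range (r + 1), (-1 : ℝ) ^ j * (H.card.choose j) := by
    have : H.powerset.filter (fun T => T.card ≤ r) = (range (r + 1)).biUnion (fun j => H.powersetCard j) := by
      ext T
      rw [mem_filter, mem_powerset, mem_biUnion]
      constructor
      · rintro ⟨h1, h2⟩
        exact ⟨T.card, mem_range.2 (by omega), mem_powersetCard.2 ⟨h1, rfl⟩⟩
      · rintro ⟨j, hj, hT⟩
        rw [mem_powersetCard] at hT
        rw [mem_range] at hj
        exact ⟨hT.1, by omega⟩
    rw [this, sum_biUnion]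
    · apply sum_congr rfl
      intro j _
      rw [sum_congr rfl (g := fun _ => (-1 : ℝ) ^ j) (fun T hT => by rw [(mem_powersetCard.1 hT).2]), sum_const, card_powersetCard,
        nsmul_eq_mul, mul_comm]
    · intro a _ c _ hac
      simp only [Function.onFun]
      rw [disjoint_left]
      intro T h1 h2
      rw [mem_powersetCard] at h1 h2
      exact hac (h1.2.symm.trans h2.2)
  have e2 : ∑ _T ∈ H.powerset.filter (fun T => T.card = r), (1 : ℝ) = H.card.choose r := by
    rw [sum_const, nsmul_eq_mul, mul_one]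
    congr 1
    rw [← card_powersetCard]
    congr 1
    ext T
    rw [mem_filter, mem_powerset, mem_powersetCard]
  rw [e1, e2]
  by_cases hH : H = ∅
  · subst hH
    rw [if_pos rfl, card_empty]
    have : ∑ j ∈ range (r + 1), (-1 : ℝ) ^ j * ((0 : ℕ).choose j) = 1 := by
      rw [sum_range_succ']
      simp
    rw [this]
    simp
  · rw [if_neg hH]
    have hc : H.card ≠ 0 := by rwa [Ne, card_eq_zero]
    obtain ⟨n, hn⟩ := Nat.exists_eq_succ_of_ne_zero hc
    have h1 : ∑ j ∈ range (r + 1), (-1 : ℝ) ^ j * (H.card.choose j) = (-1 : ℝ) ^ r * (n.choose r) := by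
      have := Int.alternating_sum_range_choose_eq_choose (n := n) (m := r)
      have h2 : ((∑ i ∈ range (r + 1), (-1 : ℤ) ^ i * ((n + 1).choose i : ℤ) : ℤ) : ℝ) = (((-1 : ℤ) ^ r * (n.choose r : ℤ) : ℤ) : ℝ) := by
        exact_mod_cast this
      push_cast at h2
      rw [hn]
      exact h2
    rw [h1, zero_sub, abs_neg, abs_mul, abs_pow, abs_neg, abs_one, one_pow, one_mul, abs_of_nonneg (Nat.cast_nonneg _)]
    rw [hn]
    exact_mod_cast Nat.choose_le_choose r (Nat.le_succ n)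

open Classical in
/-- Brun's sieve -/
theorem brun (Ω P : Finset ℕ) (hit : ℕ → ℕ → Prop) (X : ℝ) (hX : 0 ≤ X) (r : ℕ) (err : Finset ℕ → ℝ)
    (h : ∀ T ⊆ P, T.card ≤ r → |((Ω.filter (fun m => ∀ p ∈ T, hit p m)).card : ℝ) - X * ∏ p ∈ T, 1 / (p : ℝ)| ≤ err T) :
    |((Ω.filter (fun m => ∀ p ∈ P, ¬ hit p m)).card : ℝ) - X * ∏ p ∈ P, (1 - 1 / (p : ℝ))| ≤
      X * ∑ T ∈ P.powerset.filter (fun T => r ≤ T.card), ∏ p ∈ T, 1 / (p : ℝ) +
        2 * ∑ T ∈ P.powerset.filter (fun T => T.card ≤ r), err T := by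
  -- the numbers of hits
  obtain ⟨N, hN⟩ : ∃ N : Finset ℕ → ℝ, N = fun T => ((Ω.filter (fun m => ∀ p ∈ T, hit p m)).card : ℝ) := ⟨_, rfl⟩
  obtain ⟨g, hg⟩ : ∃ g : Finset ℕ → ℝ, g = fun T : Finset ℕ => ∏ p ∈ T, 1 / (p : ℝ) := ⟨_, rfl⟩
  have hNe : ∀ T, ((Ω.filter (fun m => ∀ p ∈ T, hit p m)).card : ℝ) = N T := fun T => by rw [hN]
  have hge : ∀ T : Finset ℕ, ∏ p ∈ T, 1 / (p : ℝ) = g T := fun T => by rw [hg]
  have hg0 : ∀ T, 0 ≤ g T := fun T => by rw [hg]; exact prod_nonneg fun p _ => by positivity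
  simp only [hNe, hge] at h ⊢
  have hNs : ∀ T, N T = ∑ m ∈ Ω, (if ∀ p ∈ T, hit p m then (1 : ℝ) else 0) := by
    intro T
    rw [hN]
    simp only
    rw [card_filter]
    push_cast
    rfl
  -- step 1
  have s1 : |((Ω.filter (fun m => ∀ p ∈ P, ¬ hit p m)).card : ℝ) -
      ∑ T ∈ P.powerset.filter (fun T => T.card ≤ r), (-1 : ℝ) ^ T.card * N T| ≤
      ∑ T ∈ P.powerset.filter (fun T => T.card = r), N T := by
    have hpt : ∀ m ∈ Ω, |(if ∀ p ∈ P, ¬ hit p m then (1 : ℝ) else 0) -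
        ∑ T ∈ P.powerset.filter (fun T => T.card ≤ r), (-1 : ℝ) ^ T.card * (if ∀ p ∈ T, hit p m then (1 : ℝ) else 0)| ≤
        ∑ T ∈ P.powerset.filter (fun T => T.card = r), (if ∀ p ∈ T, hit p m then (1 : ℝ) else 0) := by
      intro m _
      obtain ⟨H, hH⟩ : ∃ H, H = P.filter (fun p => hit p m) := ⟨_, rfl⟩
      have hmem : ∀ T, T ∈ P.powerset → ((∀ p ∈ T, hit p m) ↔ T ⊆ H) := by
        intro T hT
        rw [mem_powerset] at hT
        rw [hH]
        constructor
        · intro h1 p hp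
          exact mem_filter.2 ⟨hT hp, h1 p hp⟩
        · intro h1 p hp
          exact (mem_filter.1 (h1 hp)).2
      have hHP : H ⊆ P := by rw [hH]; exact filter_subset _ _
      have hpow : ∀ (C : ℕ → Prop) [DecidablePred C] (F : Finset ℕ → ℝ),
          ∑ T ∈ P.powerset.filter (fun T => C T.card), F T * (if ∀ p ∈ T, hit p m then (1 : ℝ) else 0) =
          ∑ T ∈ H.powerset.filter (fun T => C T.card), F T := by
        intro C _ F
        have e1 : H.powerset.filter (fun T => C T.card) = (P.powerset.filter (fun T => C T.card)).filter (fun T => T ⊆ H) := by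
          ext T
          rw [mem_filter, mem_filter, mem_filter, mem_powerset, mem_powerset]
          constructor
          · rintro ⟨h1, h2⟩
            exact ⟨⟨h1.trans hHP, h2⟩, h1⟩
          · rintro ⟨⟨_, h2⟩, h1⟩
            exact ⟨h1, h2⟩
        rw [e1, sum_filter (fun T => T ⊆ H)]
        apply sum_congr rfl
        intro T hT
        rw [mem_filter] at hT
        by_cases h1 : T ⊆ H
        · rw [if_pos ((hmem T hT.1).2 h1), if_pos h1, mul_one]
        · rw [if_neg (fun h2 => h1 ((hmem T hT.1).1 h2)), if_neg h1, mul_zero]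
      have h1 := bonf H r
      rw [hpow (fun j => j ≤ r) (fun T => (-1 : ℝ) ^ T.card)]
      have h2 := hpow (fun j => j = r) (fun _ => 1)
      simp only [one_mul] at h2
      rw [h2]
      have h3 : (if ∀ p ∈ P, ¬ hit p m then (1 : ℝ) else 0) = (if H = ∅ then (1 : ℝ) else 0) := by
        have : (∀ p ∈ P, ¬ hit p m) ↔ H = ∅ := by
          rw [hH, filter_eq_empty_iff]
        simp only [this]
      rw [h3]
      exact h1
    have e1 : ((Ω.filter (fun m => ∀ p ∈ P, ¬ hit p m)).card : ℝ) = ∑ m ∈ Ω, (if ∀ p ∈ P, ¬ hit p m then (1 : ℝ) else 0) := by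
      rw [card_filter]
      push_cast
      rfl
    have e2 : ∑ T ∈ P.powerset.filter (fun T => T.card ≤ r), (-1 : ℝ) ^ T.card * N T =
        ∑ m ∈ Ω, ∑ T ∈ P.powerset.filter (fun T => T.card ≤ r), (-1 : ℝ) ^ T.card * (if ∀ p ∈ T, hit p m then (1 : ℝ) else 0) := by
      rw [sum_comm]
      apply sum_congr rfl
      intro T _
      rw [hNs, mul_sum]
    have e3 : ∑ T ∈ P.powerset.filter (fun T => T.card = r), N T =
        ∑ m ∈ Ω, ∑ T ∈ P.powerset.filter (fun T => T.card = r), (if ∀ p ∈ T, hit p m then (1 : ℝ) else 0) := by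
      rw [sum_comm]
      apply sum_congr rfl
      intro T _
      rw [hNs]
    rw [e1, e2, e3, ← sum_sub_distrib]
    exact (abs_sum_le_sum_abs _ _).trans (sum_le_sum hpt)
  -- step 2
  have s2 : |∑ T ∈ P.powerset.filter (fun T => T.card ≤ r), (-1 : ℝ) ^ T.card * N T -
      X * ∑ T ∈ P.powerset.filter (fun T => T.card ≤ r), (-1 : ℝ) ^ T.card * g T| ≤
      ∑ T ∈ P.powerset.filter (fun T => T.card ≤ r), err T := by
    rw [mul_sum, ← sum_sub_distrib]
    refine (abs_sum_le_sum_abs _ _).trans ?_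
    apply sum_le_sum
    intro T hT
    rw [mem_filter, mem_powerset] at hT
    have : (-1 : ℝ) ^ T.card * N T - X * ((-1 : ℝ) ^ T.card * g T) = (-1 : ℝ) ^ T.card * (N T - X * g T) := by ring
    rw [this, abs_mul, abs_pow, abs_neg, abs_one, one_pow, one_mul]
    exact h T hT.1 hT.2
  -- step 3
  have s3 : ∏ p ∈ P, (1 - 1 / (p : ℝ)) = ∑ T ∈ P.powerset, (-1 : ℝ) ^ T.card * g T := by
    have h1 := Finset.prod_add (fun p : ℕ => -(1 / (p : ℝ))) (fun _ => (1 : ℝ)) P
    have h2 : ∏ p ∈ P, (1 - 1 / (p : ℝ)) = ∏ p ∈ P, (-(1 / (p : ℝ)) + 1) := prod_congr rfl fun p _ => by ring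
    rw [h2, h1]
    apply sum_congr rfl
    intro T _
    rw [prod_const_one, mul_one, hg, prod_neg]
  have s4 : |∑ T ∈ P.powerset.filter (fun T => T.card ≤ r), (-1 : ℝ) ^ T.card * g T - ∏ p ∈ P, (1 - 1 / (p : ℝ))| ≤
      ∑ T ∈ P.powerset.filter (fun T => r < T.card), g T := by
    rw [s3, ← sum_filter_add_sum_filter_not P.powerset (fun T => T.card ≤ r)]
    rw [show ∀ a c : ℝ, a - (a + c) = -c by intro a c; ring, abs_neg]
    refine (abs_sum_le_sum_abs _ _).trans ?_
    have e1 : P.powerset.filter (fun T => ¬ T.card ≤ r) = P.powerset.filter (fun T => r < T.card) := by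
      apply filter_congr
      intro T _
      rw [not_le]
    rw [e1]
    apply sum_le_sum
    intro T _
    rw [abs_mul, abs_pow, abs_neg, abs_one, one_pow, one_mul, abs_of_nonneg (hg0 T)]
  -- step 4
  have s5 : ∑ T ∈ P.powerset.filter (fun T => T.card = r), N T ≤
      X * ∑ T ∈ P.powerset.filter (fun T => T.card = r), g T + ∑ T ∈ P.powerset.filter (fun T => T.card ≤ r), err T := by
    rw [mul_sum]
    have h1 : ∑ T ∈ P.powerset.filter (fun T => T.card = r), N T ≤
        ∑ T ∈ P.powerset.filter (fun T => T.card = r), (X * g T + err T) := by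
      apply sum_le_sum
      intro T hT
      rw [mem_filter, mem_powerset] at hT
      have := h T hT.1 hT.2.le
      rw [abs_le] at this
      linarith [this.2]
    rw [sum_add_distrib] at h1
    have h2 : ∑ T ∈ P.powerset.filter (fun T => T.card = r), err T ≤ ∑ T ∈ P.powerset.filter (fun T => T.card ≤ r), err T := by
      apply sum_le_sum_of_subset_of_nonneg
      · intro T hT
        rw [mem_filter] at hT ⊢
        exact ⟨hT.1, hT.2.le⟩
      · intro T hT _
        rw [mem_filter, mem_powerset] at hT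
        exact (abs_nonneg _).trans (h T hT.1 hT.2)
    linarith
  have s6 : ∑ T ∈ P.powerset.filter (fun T => T.card = r), g T + ∑ T ∈ P.powerset.filter (fun T => r < T.card), g T =
      ∑ T ∈ P.powerset.filter (fun T => r ≤ T.card), g T := by
    rw [← sum_union]
    · apply sum_congr
      · ext T
        rw [mem_union, mem_filter, mem_filter, mem_filter]
        constructor
        · rintro (⟨h1, h2⟩ | ⟨h1, h2⟩)
          · exact ⟨h1, h2.ge⟩
          · exact ⟨h1, h2.le⟩
        · rintro ⟨h1, h2⟩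
          rcases Nat.eq_or_lt_of_le h2 with h3 | h3
          · exact Or.inl ⟨h1, h3.symm⟩
          · exact Or.inr ⟨h1, h3⟩
      · intros; rfl
    · rw [disjoint_left]
      intro T h1 h2
      rw [mem_filter] at h1 h2
      omega
  have s4' := mul_le_mul_of_nonneg_left s4 hX
  rw [← abs_of_nonneg hX, ← abs_mul, abs_of_nonneg hX, mul_sub] at s4'
  have s6' : X * ∑ T ∈ P.powerset.filter (fun T => T.card = r), g T + X * ∑ T ∈ P.powerset.filter (fun T => r < T.card), g T =
      X * ∑ T ∈ P.powerset.filter (fun T => r ≤ T.card), g T := by rw [← mul_add, s6]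
  rw [abs_le] at s1 s2 s4' ⊢
  constructor
  · linarith [s1.1, s2.1, s4'.1]
  · linarith [s1.2, s2.2, s4'.2]

/-- Rankin's trick -/
lemma rankin (P : Finset ℕ) (z r : ℕ) (hz : 1 ≤ z) (hP : P ⊆ Icc 1 z) :
    ∑ T ∈ P.powerset.filter (fun T => r ≤ T.card), ∏ p ∈ T, 1 / (p : ℝ) ≤ 8 * (z : ℝ) ^ 2 / 2 ^ r := by
  classical
  have h1 : ∑ T ∈ P.powerset.filter (fun T => r ≤ T.card), ∏ p ∈ T, 1 / (p : ℝ) ≤
      (1 / 2 ^ r) * ∑ T ∈ P.powerset, ∏ p ∈ T, 2 / (p : ℝ) := by
    rw [mul_sum]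
    calc ∑ T ∈ P.powerset.filter (fun T => r ≤ T.card), ∏ p ∈ T, 1 / (p : ℝ) ≤
          ∑ T ∈ P.powerset.filter (fun T => r ≤ T.card), (1 / 2 ^ r) * ∏ p ∈ T, 2 / (p : ℝ) := by
          apply sum_le_sum
          intro T hT
          rw [mem_filter] at hT
          have e1 : ∏ p ∈ T, 2 / (p : ℝ) = 2 ^ T.card * ∏ p ∈ T, 1 / (p : ℝ) := by
            rw [← prod_const, ← prod_mul_distrib]
            apply prod_congr rfl
            intro p _
            ring
          rw [e1]
          have h2 : (1 : ℝ) ≤ 1 / 2 ^ r * 2 ^ T.card := by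
            rw [one_div, ← div_eq_inv_mul, le_div_iff₀ (by positivity), one_mul]
            exact pow_le_pow_right₀ (by norm_num) hT.2
          have h3 : (0 : ℝ) ≤ ∏ p ∈ T, 1 / (p : ℝ) := prod_nonneg fun p _ => by positivity
          calc ∏ p ∈ T, 1 / (p : ℝ) ≤ (1 / 2 ^ r * 2 ^ T.card) * ∏ p ∈ T, 1 / (p : ℝ) := le_mul_of_one_le_left h3 h2
            _ = _ := by ring
      _ ≤ _ := sum_le_sum_of_subset_of_nonneg (filter_subset _ _) fun T _ _ => by
          have : (0 : ℝ) ≤ ∏ p ∈ T, 2 / (p : ℝ) := prod_nonneg fun p _ => by positivity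
          positivity
  have h2 : ∑ T ∈ P.powerset, ∏ p ∈ T, 2 / (p : ℝ) = ∏ p ∈ P, (2 / (p : ℝ) + 1) := by
    have := Finset.prod_add (fun p : ℕ => 2 / (p : ℝ)) (fun _ => (1 : ℝ)) P
    rw [this]
    apply sum_congr rfl
    intro T _
    rw [prod_const_one, mul_one]
  have h3 : ∏ p ∈ P, (2 / (p : ℝ) + 1) ≤ Real.exp (∑ p ∈ P, 2 / (p : ℝ)) := by
    rw [Real.exp_sum]
    apply prod_le_prod
    · intro p _
      positivity
    · intro p _
      exact Real.add_one_le_exp _
  have h4 : ∑ p ∈ P, 2 / (p : ℝ) ≤ 2 * (1 + Real.log z) := by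
    have e1 : ∑ p ∈ P, 2 / (p : ℝ) = 2 * ∑ p ∈ P, (1 : ℝ) / p := by
      rw [mul_sum]
      exact sum_congr rfl fun p _ => by ring
    rw [e1]
    apply mul_le_mul_of_nonneg_left _ (by norm_num)
    have h5 : ∑ p ∈ P, (1 : ℝ) / p ≤ ∑ p ∈ Icc 1 z, (1 : ℝ) / p :=
      sum_le_sum_of_subset_of_nonneg hP fun p _ _ => by positivity
    have h6 := harmonic_le_one_add_log z
    rw [harmonic_eq_sum_Icc] at h6
    push_cast at h6
    refine h5.trans (le_trans (le_of_eq ?_) h6)
    exact sum_congr rfl fun p _ => by rw [one_div]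
  have h5 : Real.exp (∑ p ∈ P, 2 / (p : ℝ)) ≤ 8 * (z : ℝ) ^ 2 := by
    have hz0 : (0 : ℝ) < z := by exact_mod_cast hz
    calc Real.exp (∑ p ∈ P, 2 / (p : ℝ)) ≤ Real.exp (2 * (1 + Real.log z)) := Real.exp_le_exp.2 h4
      _ = Real.exp 1 ^ 2 * (z : ℝ) ^ 2 := by
          rw [mul_comm, Real.exp_mul, Real.exp_add, Real.exp_log hz0]
          norm_cast
          rw [mul_pow]
          push_cast
          rfl
      _ ≤ 8 * (z : ℝ) ^ 2 := by
          have := Real.exp_one_lt_d9
          have h7 := Real.exp_pos 1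
          have : Real.exp 1 ^ 2 ≤ 8 := by nlinarith
          exact mul_le_mul_of_nonneg_right this (by positivity)
  rw [h2] at h1
  refine h1.trans ?_
  calc (1 / 2 ^ r : ℝ) * ∏ p ∈ P, (2 / (p : ℝ) + 1) ≤ (1 / 2 ^ r) * (8 * (z : ℝ) ^ 2) :=
        mul_le_mul_of_nonneg_left (h3.trans h5) (by positivity)
    _ = _ := by ring

end Pool.Agent.E8helper28.PD
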