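import Pool.Agent.E8helper28.PD.Pd3
import Pool.Agent.E8helper28.PD.Pd4
import Pool.Agent.H476R2.Pal.BV2

set_option autoImplicit false
set_option maxHeartbeats 4000000

/-!
# The sieve for the numbers `n + κ v`, `v` a decimal palindrome (helper28)
-/

namespace Pool.Agent.E8helper28.PD

open Finset
open Pool.Agent.H373R2.T7
open Pool.Agent.TH872.Tr (IsPalindrome)
open Pool.Agent.H476R2.Pal (pv cnt BV2)
open Pool.Agent.H861R2.Pal (palin pvl palin_eq pvl_inj pvl_pv modEq_shift digits_pvl lst lst_length lst_getElem dgl_L)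

lemma digits_len (L v : ℕ) (h1 : 10 ^ (2 * L) ≤ v) (h2 : v < 10 ^ (2 * L + 1)) : (Nat.digits 10 v).length = 2 * L + 1 := by
  apply le_antisymm
  · exact (Nat.digits_length_le_iff (by norm_num) v).2 h2
  · have := (Nat.lt_digits_length_iff (b := 10) (by norm_num) v (k := 2 * L)).2 h1
    omega

lemma digit_get (v i : ℕ) (h : i < (Nat.digits 10 v).length) : (Nat.digits 10 v)[i] = v / 10 ^ i % 10 := by
  rw [← Nat.getD_digits v i (by norm_num : 2 ≤ 10), List.getD_eq_getElem _ _ h]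

lemma pal_iff (L v : ℕ) (h1 : 10 ^ (2 * L) ≤ v) (h2 : v < 10 ^ (2 * L + 1)) :
    (∀ j < 2 * L + 1, v / 10 ^ j % 10 = v / 10 ^ (2 * L + 1 - 1 - j) % 10) ↔ (Nat.digits 10 v).reverse = Nat.digits 10 v := by
  have hlen := digits_len L v h1 h2
  constructor
  · intro h
    apply List.ext_getElem
    · rw [List.length_reverse]
    · intro i h3 h4
      rw [List.getElem_reverse, digit_get, digit_get]
      rw [hlen] at h4
      rw [h i h4, hlen]
  · intro h j hj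
    have h3 : j < (Nat.digits 10 v).reverse.length := by rw [List.length_reverse, hlen]; exact hj
    have h4 : (Nat.digits 10 v).reverse[j] = (Nat.digits 10 v)[j]'(by rw [hlen]; exact hj) := by
      congr 1
    rw [List.getElem_reverse, digit_get, digit_get, hlen] at h4
    exact h4.symm

lemma pl_palin (L : ℕ) : pl 10 (2 * L + 1) = palin L := by
  classical
  unfold pl palin IsPalindrome
  ext v
  simp only [mem_filter, mem_range]
  constructor
  · rintro ⟨h1, h2, _, h4⟩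
    exact ⟨h1, h2, (pal_iff L v h2 h1).1 h4⟩
  · rintro ⟨h1, h2, h3⟩
    exact ⟨h1, h2, h1, (pal_iff L v h2 h1).2 h3⟩

/-- the palindromes with last digit `c` -/
noncomputable def Om (L c : ℕ) : Finset ℕ := (pl 10 (2 * L + 1)).filter (fun v => v % 10 = c)

lemma pvl_mod (L c : ℕ) (hL : 1 ≤ L) (h1 : 1 ≤ c) (h9 : c ≤ 9) (m : Fin L → Fin 10) : pvl c L m % 10 = c := by
  have h := digits_pvl h1 h9 L hL m
  have h0 : 0 < (Nat.digits 10 (pvl c L m)).length := by rw [h, lst_length]; omega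
  have h2 := digit_get (pvl c L m) 0 h0
  rw [pow_zero, Nat.div_one] at h2
  rw [← h2]
  have h3 : (Nat.digits 10 (pvl c L m))[0] = (lst c L m)[0]'(by rw [lst_length]; omega) := by
    congr 1
  rw [h3, lst_getElem]
  have : Nat.dist 0 L = L := by rw [Nat.dist_comm]; exact Nat.dist_zero_right L
  rw [this, dgl_L]

lemma Om_eq (L c : ℕ) (hL : 1 ≤ L) (h1 : 1 ≤ c) (h9 : c ≤ 9) : Om L c = univ.image (fun m : Fin L → Fin 10 => pvl c L m) := by
  classical
  unfold Om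
  rw [pl_palin, palin_eq L hL]
  ext v
  rw [mem_filter, mem_image, mem_image]
  constructor
  · rintro ⟨⟨⟨l, m⟩, hx, rfl⟩, h2⟩
    rw [mem_product, mem_Icc] at hx
    simp only at h2 hx
    rw [pvl_mod L l hL hx.1.1 hx.1.2] at h2
    subst h2
    exact ⟨m, mem_univ _, rfl⟩
  · rintro ⟨m, _, rfl⟩
    exact ⟨⟨(c, m), by rw [mem_product, mem_Icc]; exact ⟨⟨h1, h9⟩, mem_univ _⟩, rfl⟩, pvl_mod L c hL h1 h9 m⟩

/-- the residue -/
def res (κ : ℤ) (n q : ℕ) : ℕ := ((-κ * (n : ℤ)) % (q : ℤ)).toNat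

lemma res_iff (κ : ℤ) (hκ : κ = 1 ∨ κ = -1) (n q v : ℕ) (hq : 1 ≤ q) : (q : ℤ) ∣ (n : ℤ) + κ * v ↔ v ≡ res κ n q [MOD q] := by
  have h0 : 0 ≤ (-κ * (n : ℤ)) % (q : ℤ) := Int.emod_nonneg _ (by exact_mod_cast (by omega : q ≠ 0))
  have h1 : ((res κ n q : ℕ) : ℤ) = (-κ * (n : ℤ)) % (q : ℤ) := by unfold res; exact Int.toNat_of_nonneg h0
  have h2 : ((res κ n q : ℕ) : ℤ) ≡ -κ * (n : ℤ) [ZMOD q] := by rw [h1]; exact Int.mod_modEq _ _
  rw [← Int.natCast_modEq_iff]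
  have h3 : (v : ℤ) ≡ ((res κ n q : ℕ) : ℤ) [ZMOD q] ↔ (v : ℤ) ≡ -κ * (n : ℤ) [ZMOD q] :=
    ⟨fun h => h.trans h2, fun h => h.trans h2.symm⟩
  rw [h3, Int.modEq_iff_dvd]
  rcases hκ with rfl | rfl
  · rw [← dvd_neg]
    have : -((n : ℤ) + 1 * v) = -1 * (n : ℤ) - v := by ring
    rw [this]
  · have : (n : ℤ) + (-1) * v = -(-1) * (n : ℤ) - v := by ring
    rw [this]

lemma card_Om (L c : ℕ) (hL : 1 ≤ L) (h1 : 1 ≤ c) (h9 : c ≤ 9) (κ : ℤ) (hκ : κ = 1 ∨ κ = -1) (n q : ℕ) (hq : 1 ≤ q) :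
    (((Om L c).filter (fun v : ℕ => (q : ℤ) ∣ (n : ℤ) + κ * v)).card : ℝ) =
      cnt L q (res κ n q + (q - 1) * ((c - 1) * (10 ^ (2 * L) + 1))) := by
  classical
  rw [Om_eq L c hL h1 h9, filter_image, card_image_of_injOn, cnt]
  · congr 2
    apply filter_congr
    intro m _
    rw [res_iff κ hκ n q _ hq, pvl_pv h1, modEq_shift hq]
  · intro x _ y _ hxy
    have := pvl_inj L hL (show ((c, x) : ℕ × (Fin L → Fin 10)).1 ≤ 9 from h9) (show ((c, y) : ℕ × (Fin L → Fin 10)).1 ≤ 9 from h9) hxy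
    exact (Prod.mk.inj this).2

/-- the primes which do not divide `10` -/
def P10 (z : ℕ) : Finset ℕ := (Icc 1 z).filter (fun p => p.Prime ∧ ¬ p ∣ 10)

lemma dvd_prod_iff (T : Finset ℕ) (hT : ∀ p ∈ T, p.Prime) (x : ℤ) : (∀ p ∈ T, (p : ℤ) ∣ x) ↔ (((∏ p ∈ T, p : ℕ)) : ℤ) ∣ x := by
  constructor
  · intro h
    rw [Int.natCast_dvd]
    apply Finset.prod_primes_dvd
    · intro p hp
      exact (hT p hp).prime
    · intro p hp
      exact Int.natCast_dvd.1 (h p hp)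
  · intro h p hp
    exact dvd_trans (by exact_mod_cast dvd_prod_of_mem (fun p => p) hp) h

/-- the error sum -/
lemma err_sum (z r D : ℕ) (hzr : z ^ r ≤ D) (hz : 1 ≤ z) (F : ℕ → ℝ) (hF : ∀ q, 0 ≤ F q) :
    ∑ T ∈ (P10 z).powerset.filter (fun T => T.card ≤ r), F (∏ p ∈ T, p) ≤ ∑ q ∈ (Icc 1 D).filter (fun q => q.Coprime 10), F q := by
  classical
  have hprime : ∀ T ∈ (P10 z).powerset.filter (fun T => T.card ≤ r), ∀ p ∈ T, p.Prime ∧ ¬ p ∣ 10 ∧ 1 ≤ p ∧ p ≤ z := by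
    intro T hT p hp
    rw [mem_filter, mem_powerset] at hT
    have := hT.1 hp
    unfold P10 at this
    rw [mem_filter, mem_Icc] at this
    exact ⟨this.2.1, this.2.2, this.1.1, this.1.2⟩
  have hinj : Set.InjOn (fun T : Finset ℕ => ∏ p ∈ T, p) ((P10 z).powerset.filter (fun T => T.card ≤ r) : Finset (Finset ℕ)) := by
    intro T hT T' hT' h
    simp only at h
    rw [mem_coe] at hT hT'
    rw [← Nat.primeFactors_prod (fun p hp => (hprime T hT p hp).1), ← Nat.primeFactors_prod (fun p hp => (hprime T' hT' p hp).1), h]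
  rw [← sum_image (f := F) hinj]
  apply sum_le_sum_of_subset_of_nonneg
  · intro q hq
    rw [mem_image] at hq
    obtain ⟨T, hT, rfl⟩ := hq
    rw [mem_filter, mem_Icc]
    refine ⟨⟨?_, ?_⟩, ?_⟩
    · exact Nat.succ_le_of_lt (Finset.prod_pos fun p hp => (hprime T hT p hp).1.pos)
    · refine le_trans ?_ hzr
      calc ∏ p ∈ T, p ≤ ∏ _p ∈ T, z := prod_le_prod' fun p hp => (hprime T hT p hp).2.2.2
        _ = z ^ T.card := by rw [prod_const]
        _ ≤ z ^ r := Nat.pow_le_pow_right hz (mem_filter.1 hT).2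
    · apply Nat.Coprime.prod_left
      intro p hp
      exact (Nat.Prime.coprime_iff_not_dvd (hprime T hT p hp).1).2 (hprime T hT p hp).2.1
  · intro q _ _
    exact hF q

/-- polynomials and the square root -/
lemma sqrt_big (d C : ℕ) : ∃ L0 : ℕ, ∀ L : ℕ, L0 ≤ L → C * (2 * L + 1) ^ d ≤ 2 ^ (Nat.sqrt L) := by
  have hpow := (isLittleO_pow_const_const_pow_of_one_lt (R := ℝ) (2 * d) (r := 2) (by norm_num)).def (c := 1 / (C * 8 ^ d + 1)) (by positivity)
  rw [Filter.eventually_atTop] at hpow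
  obtain ⟨s0, h0⟩ := hpow
  refine ⟨(s0 + 1) ^ 2, fun L hL => ?_⟩
  obtain ⟨s, hs⟩ : ∃ s, s = Nat.sqrt L := ⟨_, rfl⟩
  have hs0 : s0 + 1 ≤ s := by
    rw [hs, Nat.le_sqrt']
    exact hL
  have hL2 : L < (s + 1) ^ 2 := by
    rw [hs]
    exact Nat.lt_succ_sqrt' L
  have h1 := h0 s (by omega)
  rw [Real.norm_of_nonneg (by positivity), Real.norm_of_nonneg (by positivity)] at h1
  rw [← hs]
  have h2 : 2 * L + 1 ≤ 8 * s ^ 2 := by nlinarith
  have h3 : (2 * L + 1) ^ d ≤ 8 ^ d * s ^ (2 * d) := by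
    calc (2 * L + 1) ^ d ≤ (8 * s ^ 2) ^ d := Nat.pow_le_pow_left h2 d
      _ = _ := by rw [mul_pow, ← pow_mul]
  have h4 : ((C * (2 * L + 1) ^ d : ℕ) : ℝ) ≤ ((2 ^ s : ℕ) : ℝ) := by
    have h5 : (((2 * L + 1) ^ d : ℕ) : ℝ) ≤ ((8 ^ d * s ^ (2 * d) : ℕ) : ℝ) := by exact_mod_cast h3
    rw [Nat.cast_mul]
    calc (C : ℝ) * ((2 * L + 1) ^ d : ℕ) ≤ C * ((8 ^ d * s ^ (2 * d) : ℕ) : ℝ) := by gcongr
      _ = (C * 8 ^ d) * (s : ℝ) ^ (2 * d) := by push_cast; ring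
      _ ≤ (C * 8 ^ d + 1) * (1 / (C * 8 ^ d + 1) * 2 ^ s) := by
          gcongr
          linarith
      _ = _ := by
          push_cast
          field_simp
  exact_mod_cast h4

end Pool.Agent.E8helper28.PD
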