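import Pool.Agent.E8helper28.PD.Pd5

set_option autoImplicit false
set_option maxHeartbeats 4000000

/-!
# The asymptotic formula for the primes `n ± v`, `v` a decimal palindrome, for almost all `n` (helper28)
-/

namespace Pool.Agent.E8helper28.PD

open Finset
open Pool.Agent.H373R2.T7
open Pool.Agent.TH872.Tr (IsPalindrome)
open Pool.Agent.H476R2.Pal (pv cnt BV2)
open Pool.Agent.H861R2.Pal (palin pvl palin_eq pvl_inj pvl_pv modEq_shift digits_pvl lst lst_length lst_getElem dgl_L)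

/-- the density -/
noncomputable def W10 (z : ℕ) : ℝ := ∏ p ∈ P10 z, (1 - 1 / (p : ℝ))

lemma Vz_W10 (z : ℕ) (hz : 5 ≤ z) : Vz z = 2 / 5 * W10 z := by
  unfold Vz W10
  have e : pz z = insert 2 (insert 5 (P10 z)) := by
    ext p
    rw [mem_pz, mem_insert, mem_insert]
    unfold P10
    rw [mem_filter, mem_Icc]
    constructor
    · rintro ⟨h1, h2⟩
      by_cases h3 : p ∣ 10
      · have h4 : p ≤ 10 := Nat.le_of_dvd (by norm_num) h3
        interval_cases p <;> first | omega | (exfalso; revert h2; norm_num)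
      · exact Or.inr (Or.inr ⟨⟨h2.one_lt.le, h1⟩, h2, h3⟩)
    · rintro (rfl | rfl | ⟨⟨_, h2⟩, h3, _⟩)
      · exact ⟨by omega, Nat.prime_two⟩
      · exact ⟨by omega, Nat.prime_five⟩
      · exact ⟨h2, h3⟩
  have h5 : 5 ∉ P10 z := by
    unfold P10
    rw [mem_filter]
    rintro ⟨_, _, h⟩
    exact h (by norm_num)
  have h2 : 2 ∉ insert 5 (P10 z) := by
    rw [mem_insert]
    rintro (h | h)
    · omega
    · unfold P10 at h
      rw [mem_filter] at h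
      exact h.2.2 (by norm_num)
  rw [e, prod_insert h2, prod_insert h5]
  norm_num
  ring

lemma two_pow_le (L : ℕ) : (2 : ℝ) ^ L ≤ (10 : ℝ) ^ ((3 / 5 : ℝ) * L) := by
  have h1 : (2 : ℝ) ^ L = Real.exp (Real.log 2 * L) := by
    rw [mul_comm, Real.exp_nat_mul, Real.exp_log (by norm_num)]
  rw [h1, Real.rpow_def_of_pos (by norm_num)]
  apply Real.exp_le_exp.2
  have h2 : 3 * Real.log 2 ≤ Real.log 10 := by
    have : Real.log (2 ^ 3) ≤ Real.log 10 := Real.log_le_log (by norm_num) (by norm_num)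
    rwa [Real.log_pow, Nat.cast_ofNat] at this
  have h3 := Real.log_two_gt_d9
  have h4 : (0 : ℝ) ≤ L := Nat.cast_nonneg L
  have h5 : Real.log 2 ≤ Real.log 10 * (3 / 5) := by linarith
  calc Real.log 2 * L ≤ (Real.log 10 * (3 / 5)) * L := mul_le_mul_of_nonneg_right h5 h4
    _ = _ := by ring

lemma gcd_mod (κ : ℤ) (n v c p : ℕ) (hv : v % 10 = c) (hp : p ∣ 10) : (p : ℤ) ∣ (n : ℤ) + κ * v ↔ (p : ℤ) ∣ (n : ℤ) + κ * c := by
  have h1 : (v : ℤ) = c + 10 * (v / 10 : ℕ) := by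
    have := Nat.mod_add_div v 10
    rw [hv] at this
    exact_mod_cast this.symm
  have h2 : (p : ℤ) ∣ κ * (10 * (v / 10 : ℕ)) := by
    have : (p : ℤ) ∣ 10 := by exact_mod_cast hp
    exact Dvd.dvd.mul_left (Dvd.dvd.mul_right this _) _
  have h3 : (n : ℤ) + κ * v = ((n : ℤ) + κ * c) + κ * (10 * (v / 10 : ℕ)) := by rw [h1]; ring
  rw [h3]
  exact (dvd_add_left h2)

lemma cr_eq (κ : ℤ) (z n L c : ℕ) (hpos : ∀ v ∈ Om L c, 0 < (n : ℤ) + κ * v) (hg : Int.gcd ((n : ℤ) + κ * c) 10 = 1) :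
    cr κ z n (Om L c) = ((Om L c).filter (fun v : ℕ => ∀ p ∈ P10 z, ¬ (p : ℤ) ∣ (n : ℤ) + κ * v)).card := by
  classical
  unfold cr
  congr 1
  apply filter_congr
  intro v hv
  have h0 := hpos v hv
  have hv2 : v % 10 = c := by unfold Om at hv; exact (mem_filter.1 hv).2
  have hd : ∀ p : ℕ, (p : ℤ) ∣ (n : ℤ) + κ * v ↔ p ∣ ((n : ℤ) + κ * v).toNat := by
    intro p
    rw [← Int.natCast_dvd_natCast, Int.toNat_of_nonneg h0.le]
  unfold nR
  constructor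
  · rintro ⟨_, h2⟩ p hp
    unfold P10 at hp
    rw [mem_filter, mem_Icc] at hp
    rw [hd]
    exact h2 p (mem_pz.2 ⟨hp.1.2, hp.2.1⟩)
  · intro h
    refine ⟨h0, fun p hp hpd => ?_⟩
    rw [mem_pz] at hp
    rw [← hd] at hpd
    by_cases h10 : p ∣ 10
    · have h3 := (gcd_mod κ n v c p hv2 h10).1 hpd
      have h4 : (p : ℤ) ∣ (Int.gcd ((n : ℤ) + κ * c) 10 : ℤ) := Int.dvd_coe_gcd h3 (by exact_mod_cast h10)
      rw [hg] at h4
      have h5 : p ∣ 1 := by exact_mod_cast h4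
      exact hp.2.one_lt.ne' (Nat.dvd_one.1 h5)
    · refine h p ?_ hpd
      unfold P10
      rw [mem_filter, mem_Icc]
      exact ⟨⟨hp.2.one_lt.le, hp.1⟩, hp.2, h10⟩

/-- the rough values -/
theorem rough_pal (E : ℕ) (hE : 1 ≤ E) (η : ℝ) (hη : 0 < η) : ∃ L0 : ℕ, ∀ L : ℕ, L0 ≤ L →
    1 / (3 * (2 * L + 1 : ℕ) : ℝ) ≤ Vz ((2 * L + 1) ^ E) ∧ ∀ c : ℕ, 1 ≤ c → c ≤ 9 →
    ∀ κ : ℤ, (κ = 1 ∨ κ = -1) → ∀ n : ℕ, (∀ v ∈ Om L c, 0 < (n : ℤ) + κ * v) → Int.gcd ((n : ℤ) + κ * c) 10 = 1 →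
    |(cr κ ((2 * L + 1) ^ E) n (Om L c) : ℝ) - 10 ^ L * W10 ((2 * L + 1) ^ E)| ≤ η * (10 ^ L * W10 ((2 * L + 1) ^ E)) := by
  classical
  obtain ⟨C, hC⟩ := exists_nat_ge (48 / η)
  obtain ⟨L1, h1⟩ := sqrt_big (2 * E + 1) (C + 1)
  have hbv := BV2 2
  rw [Filter.eventually_atTop] at hbv
  obtain ⟨L2, h2⟩ := hbv
  obtain ⟨L3, h3⟩ := exists_nat_ge (36 / η)
  obtain ⟨k4, h4⟩ := Vz_inv_small (2 * E)
  refine ⟨L1 + L2 + L3 + k4 + 4, fun L hL => ?_⟩
  obtain ⟨k, hk⟩ : ∃ k, k = 2 * L + 1 := ⟨_, rfl⟩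
  obtain ⟨z, hz⟩ : ∃ z, z = k ^ E := ⟨_, rfl⟩
  rw [← hk, ← hz]
  have hkr : (9 : ℝ) ≤ k := by exact_mod_cast (by omega : 9 ≤ k)
  have hk0 : (0 : ℝ) < k := by linarith
  have hLr : (4 : ℝ) ≤ L := by exact_mod_cast (by omega : 4 ≤ L)
  have hk3 : (k : ℝ) ≤ 3 * L := by rw [hk]; push_cast; linarith
  have hzk : k ≤ z := by rw [hz]; exact Nat.le_self_pow (by omega) k
  have hz1 : 1 ≤ z := by omega
  have hl10 : Real.log 10 ≤ 3 := by
    rw [Real.log_le_iff_le_exp (by norm_num)]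
    have h5 := Real.exp_one_gt_d9
    have : Real.exp 3 = Real.exp 1 ^ 3 := by rw [← Real.exp_nat_mul]; norm_num
    rw [this]
    calc (10 : ℝ) ≤ 2.7 ^ 3 := by norm_num
      _ ≤ Real.exp 1 ^ 3 := pow_le_pow_left₀ (by norm_num) (by linarith) 3
  have hl10' : 1 ≤ Real.log 10 := by
    rw [Real.le_log_iff_exp_le (by norm_num)]
    have h5 := Real.exp_one_lt_d9
    linarith
  have hlX : Real.log ((10 ^ k : ℕ) : ℝ) = k * Real.log 10 := by push_cast; rw [Real.log_pow]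
  have hkX : k < 10 ^ k := Nat.lt_pow_self (by norm_num)
  have hVi : (Vz z)⁻¹ ≤ 3 * k := by
    have h5 := h4 (10 ^ k) (by omega) z hz1 (by
      rw [hlX, hz, pow_mul]
      push_cast
      apply pow_le_pow_left₀ hk0.le
      have h6 : (k : ℝ) ≤ k * Real.log 10 := le_mul_of_one_le_right hk0.le hl10'
      nlinarith)
    rw [hlX] at h5
    nlinarith
  have hV0 := Vz_pos z
  have hV : 1 / (3 * (k : ℝ)) ≤ Vz z := by
    rw [one_div]
    exact inv_le_of_inv_le₀ hV0 hVi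
  refine ⟨hV, fun c hc1 hc9 κ hκ n hpos hg => ?_⟩
  have hW : 1 / (3 * (k : ℝ)) ≤ W10 z := by
    have h5 := Vz_W10 z (by omega)
    have h6 : 0 ≤ 1 / (3 * (k : ℝ)) := by positivity
    linarith
  obtain ⟨r, hr⟩ : ∃ r, r = Nat.sqrt L := ⟨_, rfl⟩
  have hbig := h1 L (by omega)
  rw [← hr, ← hk] at hbig
  have hzr : z ^ r ≤ ⌊(10 : ℝ) ^ ((3 / 5 : ℝ) * L)⌋₊ := by
    apply Nat.le_floor
    refine le_trans ?_ (two_pow_le L)
    have h5 : z ≤ 2 ^ r := by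
      calc z = k ^ E := hz
        _ ≤ k ^ (2 * E + 1) := Nat.pow_le_pow_right (by omega) (by omega)
        _ ≤ (C + 1) * k ^ (2 * E + 1) := Nat.le_mul_of_pos_left _ (by omega)
        _ ≤ _ := hbig
    have h6 : z ^ r ≤ 2 ^ L := by
      calc z ^ r ≤ (2 ^ r) ^ r := Nat.pow_le_pow_left h5 r
        _ = 2 ^ (r * r) := by rw [← pow_mul]
        _ ≤ 2 ^ L := Nat.pow_le_pow_right (by norm_num) (by rw [hr]; exact Nat.sqrt_le L)
    exact_mod_cast h6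
  obtain ⟨h, hh⟩ : ∃ h : ℕ → ℕ, h = fun q => res κ n q + (q - 1) * ((c - 1) * (10 ^ (2 * L) + 1)) := ⟨_, rfl⟩
  obtain ⟨F, hF⟩ : ∃ F : ℕ → ℝ, F = fun q => |cnt L q (h q) - 10 ^ L / q| := ⟨_, rfl⟩
  have hF0 : ∀ q, 0 ≤ F q := fun q => by rw [hF]; exact abs_nonneg _
  have hmain := brun (Om L c) (P10 z) (fun p v => (p : ℤ) ∣ (n : ℤ) + κ * v) (10 ^ L) (by positivity) r (fun T => F (∏ p ∈ T, p)) (by
    intro T hT _
    have hTp : ∀ p ∈ T, p.Prime := fun p hp => by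
      have := hT hp
      unfold P10 at this
      exact (mem_filter.1 this).2.1
    have hq : 1 ≤ ∏ p ∈ T, p := Nat.succ_le_of_lt (Finset.prod_pos fun p hp => (hTp p hp).pos)
    have e1 : (Om L c).filter (fun v : ℕ => ∀ p ∈ T, (p : ℤ) ∣ (n : ℤ) + κ * v) =
        (Om L c).filter (fun v : ℕ => ((∏ p ∈ T, p : ℕ) : ℤ) ∣ (n : ℤ) + κ * v) := by
      apply filter_congr
      intro v _
      exact dvd_prod_iff T hTp _
    have e2 := card_Om L c (by omega) hc1 hc9 κ hκ n (∏ p ∈ T, p) hq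
    have e3 : (10 : ℝ) ^ L * ∏ p ∈ T, 1 / (p : ℝ) = 10 ^ L / ((∏ p ∈ T, p : ℕ) : ℝ) := by
      rw [Nat.cast_prod, prod_div_distrib, prod_const_one]
      ring
    have e0 : |(((Om L c).filter (fun v : ℕ => ∀ p ∈ T, (p : ℤ) ∣ (n : ℤ) + κ * v)).card : ℝ) - 10 ^ L * ∏ p ∈ T, 1 / (p : ℝ)| ≤ F (∏ p ∈ T, p) := by
      rw [e1, e3, hF, hh]
      simp only
      rw [← e2]
    convert e0)
  have e4 : ((Om L c).filter (fun v : ℕ => ∀ p ∈ P10 z, ¬ (p : ℤ) ∣ (n : ℤ) + κ * v)).card = cr κ z n (Om L c) :=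
    (cr_eq κ z n L c hpos hg).symm
  have hmain2 : |(((Om L c).filter (fun v : ℕ => ∀ p ∈ P10 z, ¬ (p : ℤ) ∣ (n : ℤ) + κ * v)).card : ℝ) - 10 ^ L * ∏ p ∈ P10 z, (1 - 1 / (p : ℝ))| ≤
      10 ^ L * ∑ T ∈ (P10 z).powerset.filter (fun T => r ≤ T.card), ∏ p ∈ T, 1 / (p : ℝ) +
        2 * ∑ T ∈ (P10 z).powerset.filter (fun T => T.card ≤ r), F (∏ p ∈ T, p) := by
    convert hmain
  rw [e4] at hmain2
  have herr : ∑ T ∈ (P10 z).powerset.filter (fun T => T.card ≤ r), F (∏ p ∈ T, p) ≤ 10 ^ L / (L : ℝ) ^ 2 := by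
    refine (err_sum z r _ hzr hz1 F hF0).trans (le_trans ?_ (h2 L (by omega) h))
    apply sum_le_sum
    intro q hq
    rw [mem_filter, mem_Icc] at hq
    have h4 : 1 ≤ q.divisors.card := Finset.card_pos.2 ⟨1, by rw [Nat.mem_divisors]; exact ⟨one_dvd _, by omega⟩⟩
    have h5 : (1 : ℝ) ≤ (q.divisors.card : ℝ) ^ 2 := one_le_pow₀ (by exact_mod_cast h4)
    rw [hF]
    exact le_mul_of_one_le_left (abs_nonneg _) h5
  have hrk := rankin (P10 z) z r hz1 (filter_subset _ _)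
  refine hmain2.trans ?_
  have h10 : (0 : ℝ) < 10 ^ L := by positivity
  have b1 : 8 * (z : ℝ) ^ 2 / 2 ^ r ≤ η / 2 * W10 z := by
    have h5 : 8 * (z : ℝ) ^ 2 / 2 ^ r ≤ η / (6 * k) := by
      rw [div_le_div_iff₀ (by positivity) (by positivity)]
      have h6 : ((C : ℝ) + 1) * (k : ℝ) ^ (2 * E + 1) ≤ 2 ^ r := by exact_mod_cast hbig
      have h7 : 48 ≤ η * (C + 1) := by
        rw [div_le_iff₀ hη] at hC
        linarith
      have h8 : (z : ℝ) ^ 2 = (k : ℝ) ^ (2 * E) := by rw [hz]; push_cast; rw [← pow_mul, mul_comm]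
      rw [h8]
      calc 8 * (k : ℝ) ^ (2 * E) * (6 * k) = 48 * (k : ℝ) ^ (2 * E + 1) := by rw [pow_succ]; ring
        _ ≤ (η * (C + 1)) * (k : ℝ) ^ (2 * E + 1) := by gcongr
        _ = η * ((C + 1) * (k : ℝ) ^ (2 * E + 1)) := by ring
        _ ≤ η * 2 ^ r := by gcongr
    refine h5.trans ?_
    have : η / (6 * k) = η / 2 * (1 / (3 * k)) := by field_simp; norm_num
    rw [this]
    exact mul_le_mul_of_nonneg_left hW (by positivity)
  have b2 : 2 * (1 / (L : ℝ) ^ 2) ≤ η / 2 * W10 z := by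
    have h5 : 2 * (1 / (L : ℝ) ^ 2) ≤ η / (6 * k) := by
      rw [mul_one_div, div_le_div_iff₀ (by positivity) (by positivity)]
      have h6 : 36 ≤ η * L := by
        rw [div_le_iff₀ hη] at h3
        have : (L3 : ℝ) ≤ L := by exact_mod_cast (by omega : L3 ≤ L)
        nlinarith
      calc 2 * (6 * (k : ℝ)) = 12 * k := by ring
        _ ≤ 12 * (3 * L) := by gcongr
        _ = 36 * L := by ring
        _ ≤ (η * L) * L := by gcongr
        _ = _ := by ring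
    refine h5.trans ?_
    have : η / (6 * k) = η / 2 * (1 / (3 * k)) := by field_simp; norm_num
    rw [this]
    exact mul_le_mul_of_nonneg_left hW (by positivity)
  have c1 := mul_le_mul_of_nonneg_left (hrk.trans b1) h10.le
  have c2 := mul_le_mul_of_nonneg_left b2 h10.le
  have c3 : (10 : ℝ) ^ L / (L : ℝ) ^ 2 = 10 ^ L * (1 / (L : ℝ) ^ 2) := by ring
  rw [c3] at herr
  unfold W10 at c1 c2 ⊢
  nlinarith

end Pool.Agent.E8helper28.PD
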