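import Pool.Agent.E8helper28.PD.Pd6

set_option autoImplicit false
set_option maxHeartbeats 4000000

/-!
# The asymptotic formula for the primes `n ± v`, `v` a decimal palindrome: the final count (helper28)
-/

namespace Pool.Agent.E8helper28.PD

open Finset
open Pool.Agent.H373R2.T7
open Pool.Agent.TH872.Tr (IsPalindrome)
open Pool.Agent.H861R2.Pal (palin pvl palin_eq)

/-- the number of the admissible last digits -/
def cc (κ : ℤ) (n : ℕ) : ℕ := ((Icc 1 9).filter (fun c : ℕ => Int.gcd ((n : ℤ) + κ * c) 10 = 1)).card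

lemma last_digit (L : ℕ) (hL : 1 ≤ L) (v : ℕ) (hv : v ∈ pl 10 (2 * L + 1)) : v % 10 ∈ Icc 1 9 := by
  rw [pl_palin, palin_eq L hL, mem_image] at hv
  obtain ⟨⟨l, m⟩, hx, rfl⟩ := hv
  rw [mem_product, mem_Icc] at hx
  simp only at hx ⊢
  rw [pvl_mod L l hL hx.1.1 hx.1.2, mem_Icc]
  exact hx.1

lemma card_pl (L : ℕ) (hL : 1 ≤ L) : (pl 10 (2 * L + 1)).card ≤ 9 * 10 ^ L := by
  rw [pl_palin, palin_eq L hL]
  refine card_image_le.trans ?_
  rw [card_product, Nat.card_Icc, card_univ, Fintype.card_fun, Fintype.card_fin, Fintype.card_fin]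

lemma cp_sum (κ : ℤ) (n L : ℕ) (hL : 1 ≤ L) : cp κ n (pl 10 (2 * L + 1)) = ∑ c ∈ Icc 1 9, cp κ n (Om L c) := by
  classical
  unfold cp
  rw [card_eq_sum_card_fiberwise (f := fun v => v % 10) (t := Icc 1 9)]
  · apply sum_congr rfl
    intro c _
    congr 1
    unfold Om
    rw [filter_filter, filter_filter]
    apply filter_congr
    intro v _
    exact and_comm
  · intro v hv
    rw [mem_coe, mem_filter] at hv
    exact last_digit L hL v hv.1

lemma cp_bad (κ : ℤ) (hκ : κ = 1 ∨ κ = -1) (n L c : ℕ) (hg : Int.gcd ((n : ℤ) + κ * c) 10 ≠ 1) : cp κ n (Om L c) ≤ 2 := by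
  classical
  unfold cp
  have hsub : (Om L c).filter (fun v => nP κ n v) ⊆ {(κ * (2 - (n : ℤ))).toNat, (κ * (5 - (n : ℤ))).toNat} := by
    intro v hv
    rw [mem_filter] at hv
    obtain ⟨h1, h2, h3⟩ := hv
    have hv2 : v % 10 = c := by unfold Om at h1; exact (mem_filter.1 h1).2
    obtain ⟨p, hp, hpd⟩ := Nat.exists_prime_and_dvd hg
    have hp10 : p ∣ 10 := by
      have := dvd_trans (Int.natCast_dvd_natCast.2 hpd) (Int.gcd_dvd_right ((n : ℤ) + κ * c) 10)
      exact_mod_cast this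
    have hpc : (p : ℤ) ∣ (n : ℤ) + κ * c := dvd_trans (Int.natCast_dvd_natCast.2 hpd) (Int.gcd_dvd_left ((n : ℤ) + κ * c) 10)
    have hpv := (gcd_mod κ n v c p hv2 hp10).2 hpc
    have h4 : p ∣ ((n : ℤ) + κ * v).toNat := by
      rw [← Int.natCast_dvd_natCast, Int.toNat_of_nonneg h2.le]
      exact hpv
    have h5 : p = ((n : ℤ) + κ * v).toNat := (Nat.prime_dvd_prime_iff_eq hp h3).1 h4
    have h6 : p = 2 ∨ p = 5 := by
      have h7 : p ≤ 10 := Nat.le_of_dvd (by norm_num) hp10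
      interval_cases p <;> first | omega | (exfalso; revert hp; norm_num)
    have h8 : ((p : ℕ) : ℤ) = (n : ℤ) + κ * v := by rw [h5]; exact Int.toNat_of_nonneg h2.le
    rw [mem_insert, mem_singleton]
    rcases hκ with rfl | rfl
    · rcases h6 with h6 | h6
      · left
        rw [h6] at h8
        push_cast at h8
        omega
      · right
        rw [h6] at h8
        push_cast at h8
        omega
    · rcases h6 with h6 | h6
      · left
        rw [h6] at h8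
        push_cast at h8
        omega
      · right
        rw [h6] at h8
        push_cast at h8
        omega
  exact (card_le_card hsub).trans card_le_two

/-- the main term for one digit -/
noncomputable def GG (L : ℕ) : ℝ := 5 / 2 * 10 ^ L / Real.log ((10 ^ (2 * L + 1) : ℕ) : ℝ)

open Classical in
theorem pal10 (B U : ℕ) (ε : ℝ) (hε : 0 < ε) (κ : ℤ) (hκ : κ = 1 ∨ κ = -1) : ∃ L0 : ℕ, ∀ L : ℕ, L0 ≤ L →
    (((Icc 1 (B * 10 ^ (2 * L + 1))).filter (fun n : ℕ => (κ = 1 ∨ 10 ^ (2 * L + 1) ≤ n) ∧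
      ¬ |(cp κ n (pl 10 (2 * L + 1)) : ℝ) - cc κ n * GG L| ≤ ε * GG L)).card : ℝ) ≤
      ((10 ^ (2 * L + 1) : ℕ) : ℝ) / ((2 * L + 1 : ℕ) : ℝ) ^ U := by
  obtain ⟨η, hηd⟩ : ∃ η : ℝ, η = min ε 1 / 100 := ⟨_, rfl⟩
  have hη : 0 < η := by rw [hηd]; exact div_pos (lt_min hε one_pos) (by norm_num)
  have hη1 : η ≤ 1 / 100 := by rw [hηd]; have := min_le_right ε 1; linarith
  have hηε : 100 * η ≤ ε := by rw [hηd]; have := min_le_left ε 1; linarith
  have hκ0 : κ ≠ 0 := by rcases hκ with rfl | rfl <;> norm_num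
  obtain ⟨E₀, h0⟩ := pal_main 10 B 1 U 2 (by norm_num) κ hκ0 η hη
  obtain ⟨E, hE⟩ : ∃ E, E = E₀ + 1 := ⟨_, rfl⟩
  obtain ⟨k₀, h0⟩ := h0 E (by omega)
  obtain ⟨L1, h1⟩ := rough_pal E (by omega) η hη
  obtain ⟨C, hC⟩ := exists_nat_ge (3 / η)
  obtain ⟨L2, h2⟩ := sqrt_big 1 C
  refine ⟨k₀ + L1 + L2 + 60, fun L hL => ?_⟩
  obtain ⟨k, hk⟩ : ∃ k, k = 2 * L + 1 := ⟨_, rfl⟩
  obtain ⟨hV, h1⟩ := h1 L (by omega)
  have h2 := h2 L (by omega)
  have hkr : (121 : ℝ) ≤ k := by exact_mod_cast (by omega : 121 ≤ k)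
  have hk0 : (0 : ℝ) < k := by linarith
  obtain ⟨z, hz⟩ : ∃ z, z = k ^ E := ⟨_, rfl⟩
  have key := h0 k (by omega) 9 (by push_cast; linarith) (fun l => Om L ((l : ℕ) + 1)) (fun l => by
    unfold Om
    rw [← hk]
    exact filter_subset _ _)
  rw [← hk] at h1 hV ⊢
  rw [← hz] at h1 hV key
  refine le_trans ?_ key
  rw [Nat.cast_le]
  apply card_le_card
  intro n hn
  rw [mem_filter] at hn ⊢
  obtain ⟨hn1, hn2, hn3⟩ := hn
  refine ⟨hn1, fun hP => hn3 ?_⟩
  rw [mem_Icc] at hn1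
  -- positivity
  have hpos : ∀ v ∈ pl 10 k, 0 < (n : ℤ) + κ * v := by
    intro v hv
    have hv2 : v < 10 ^ k := by
      unfold pl at hv
      rw [mem_filter, mem_range] at hv
      exact hv.1
    rcases hκ with rfl | rfl
    · omega
    · rcases hn2 with h | h
      · norm_num at h
      · have : (v : ℤ) < n := by exact_mod_cast (by omega : v < n)
        linarith
  have hposO : ∀ c, ∀ v ∈ Om L c, 0 < (n : ℤ) + κ * v := by
    intro c v hv
    unfold Om at hv
    rw [← hk] at hv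
    exact hpos v (mem_filter.1 hv).1
  have hlX : Real.log ((10 ^ k : ℕ) : ℝ) = k * Real.log 10 := by push_cast; rw [Real.log_pow]
  have hl10 : 1 ≤ Real.log 10 := by
    rw [Real.le_log_iff_exp_le (by norm_num)]
    have h5 := Real.exp_one_lt_d9
    linarith
  have hl10' : Real.log 10 ≤ 3 := by
    rw [Real.log_le_iff_le_exp (by norm_num)]
    have h5 := Real.exp_one_gt_d9
    have : Real.exp 3 = Real.exp 1 ^ 3 := by rw [← Real.exp_nat_mul]; norm_num
    rw [this]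
    calc (10 : ℝ) ≤ 2.7 ^ 3 := by norm_num
      _ ≤ Real.exp 1 ^ 3 := pow_le_pow_left₀ (by norm_num) (by linarith) 3
  obtain ⟨ℓ, hℓ⟩ : ∃ ℓ, ℓ = Real.log ((10 ^ k : ℕ) : ℝ) := ⟨_, rfl⟩
  have hℓ0 : 0 < ℓ := by rw [hℓ, hlX]; positivity
  have hℓ3 : ℓ ≤ 3 * k := by rw [hℓ, hlX]; nlinarith
  have hV0 := Vz_pos z
  have hzk : k ≤ z := by rw [hz]; exact Nat.le_self_pow (by omega) k
  have hVW := Vz_W10 z (by omega)
  have h10 : (0 : ℝ) < 10 ^ L := by positivity
  have hG : GG L = 5 / 2 * 10 ^ L / ℓ := by unfold GG; rw [← hk, hℓ]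
  have hG0 : 0 < GG L := by rw [hG]; positivity
  have hW0 : 0 < W10 z := by linarith
  have hWV : W10 z = 5 / 2 * Vz z := by linarith
  -- the rare digits
  have hG2 : 2 ≤ η * GG L := by
    rw [hG, mul_div_assoc', le_div_iff₀ hℓ0]
    have h5 : ((C : ℝ) * k) ≤ 2 ^ (Nat.sqrt L) := by
      rw [← hk, pow_one] at h2
      exact_mod_cast h2
    have h6 : (2 : ℝ) ^ (Nat.sqrt L) ≤ 10 ^ L := by
      calc (2 : ℝ) ^ (Nat.sqrt L) ≤ 2 ^ L := pow_le_pow_right₀ (by norm_num) (Nat.sqrt_le_self L)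
        _ ≤ 10 ^ L := pow_le_pow_left₀ (by norm_num) (by norm_num) L
    have h7 : 3 ≤ η * C := by
      rw [div_le_iff₀ hη] at hC
      linarith
    have h8 : 3 * (k : ℝ) ≤ η * 10 ^ L := by
      calc 3 * (k : ℝ) ≤ (η * C) * k := mul_le_mul_of_nonneg_right h7 hk0.le
        _ = η * (C * k) := by ring
        _ ≤ η * 10 ^ L := mul_le_mul_of_nonneg_left (h5.trans h6) hη.le
    nlinarith
  -- one digit
  have hone : ∀ c ∈ Icc (1 : ℕ) 9, |(cp κ n (Om L c) : ℝ) - (if Int.gcd ((n : ℤ) + κ * c) 10 = 1 then GG L else 0)| ≤ 3 * η * GG L := by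
    intro c hc
    rw [mem_Icc] at hc
    by_cases hg : Int.gcd ((n : ℤ) + κ * c) 10 = 1
    · rw [if_pos hg]
      have hR := h1 c hc.1 hc.2 κ hκ n (hposO c) hg
      obtain ⟨R, hRd⟩ : ∃ R : ℝ, R = cr κ z n (Om L c) := ⟨_, rfl⟩
      rw [← hRd, hWV] at hR
      have hl := hP (⟨c - 1, by omega⟩ : Fin 9)
      simp only at hl
      rw [show c - 1 + 1 = c by omega, ← hRd, ← hℓ] at hl
      have hM : (10 : ℝ) ^ L * (5 / 2 * Vz z) = GG L * (Vz z * ℓ) := by
        rw [hG]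
        field_simp
      rw [hM] at hR
      have hVl : 0 < Vz z * ℓ := by positivity
      have hbig : ((pl 10 k).card : ℝ) / (k : ℝ) ^ 2 ≤ R := by
        have h5 : ((pl 10 k).card : ℝ) ≤ 9 * 10 ^ L := by
          have := card_pl L (by omega)
          rw [← hk] at this
          exact_mod_cast this
        have h6 : (1 - η) * (10 ^ L * (5 / 2 * Vz z)) ≤ R := by
          rw [abs_le] at hR
          rw [hM]
          linarith [hR.1]
        refine le_trans ?_ h6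
        rw [div_le_iff₀ (by positivity)]
        have h7 : 1 ≤ Vz z * (3 * k) := by
          rw [div_le_iff₀ (by positivity)] at hV
          exact hV
        have h8 : (9 : ℝ) ≤ (1 - η) * (5 / 2) * (Vz z * (k : ℝ) ^ 2) := by
          have e : Vz z * (k : ℝ) ^ 2 = (Vz z * (3 * k)) * (k / 3) := by ring
          have h9 : (k : ℝ) / 3 ≤ Vz z * (k : ℝ) ^ 2 := by
            rw [e]
            exact le_mul_of_one_le_left (by positivity) h7
          have h10 : (99 / 100 : ℝ) * (5 / 2) ≤ (1 - η) * (5 / 2) := by linarith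
          calc (9 : ℝ) ≤ (99 / 100 * (5 / 2)) * (k / 3) := by linarith
            _ ≤ ((1 - η) * (5 / 2)) * (Vz z * (k : ℝ) ^ 2) := mul_le_mul h10 h9 (by positivity) (by linarith)
        calc ((pl 10 k).card : ℝ) ≤ 9 * 10 ^ L := h5
          _ ≤ ((1 - η) * (5 / 2) * (Vz z * (k : ℝ) ^ 2)) * 10 ^ L := mul_le_mul_of_nonneg_right h8 h10.le
          _ = _ := by ring
      have hl2 := hl hbig
      obtain ⟨y, hy⟩ : ∃ y, y = R / (Vz z * ℓ) := ⟨_, rfl⟩
      rw [← hy] at hl2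
      have hyG : |y - GG L| ≤ η * GG L := by
        have e : R = y * (Vz z * ℓ) := by rw [hy]; field_simp
        rw [e, ← sub_mul, abs_mul, abs_of_pos hVl, ← mul_assoc η] at hR
        exact le_of_mul_le_mul_right hR hVl
      rw [abs_le] at hl2 hyG ⊢
      have h5 : η * y ≤ η * ((1 + η) * GG L) := by
        apply mul_le_mul_of_nonneg_left _ hη.le
        linarith [hyG.2]
      have h6 : η * (η * GG L) ≤ 1 * (η * GG L) := mul_le_mul_of_nonneg_right (by linarith) (by positivity)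
      constructor
      · nlinarith [hl2.1, hyG.1]
      · nlinarith [hl2.2, hyG.2]
    · rw [if_neg hg, sub_zero, abs_of_nonneg (Nat.cast_nonneg _)]
      have h5 : (cp κ n (Om L c) : ℝ) ≤ 2 := by exact_mod_cast cp_bad κ hκ n L c hg
      have h6 : 0 ≤ η * GG L := by positivity
      linarith
  have hs := cp_sum κ n L (by omega)
  rw [← hk] at hs
  rw [hs]
  have hcc : (cc κ n : ℝ) * GG L = ∑ c ∈ Icc (1 : ℕ) 9, (if Int.gcd ((n : ℤ) + κ * c) 10 = 1 then GG L else 0) := by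
    unfold cc
    rw [← sum_filter, sum_const, nsmul_eq_mul]
  rw [hcc]
  push_cast
  rw [← sum_sub_distrib]
  calc |∑ c ∈ Icc (1 : ℕ) 9, ((cp κ n (Om L c) : ℝ) - (if Int.gcd ((n : ℤ) + κ * c) 10 = 1 then GG L else 0))|
      ≤ ∑ c ∈ Icc (1 : ℕ) 9, |(cp κ n (Om L c) : ℝ) - (if Int.gcd ((n : ℤ) + κ * c) 10 = 1 then GG L else 0)| := abs_sum_le_sum_abs _ _
    _ ≤ ∑ _c ∈ Icc (1 : ℕ) 9, 3 * η * GG L := sum_le_sum hone
    _ = 27 * η * GG L := by rw [sum_const, Nat.card_Icc, nsmul_eq_mul]; push_cast; ring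
    _ ≤ 100 * η * GG L := by
        have : 0 ≤ η * GG L := by positivity
        linarith
    _ ≤ ε * GG L := mul_le_mul_of_nonneg_right hηε hG0.le

end Pool.Agent.E8helper28.PD
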